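import Mathlib

/-!
# An augmentation inequality for 3-graphs without a complete sub-3-graph

The vertices are divided at random into three classes. Some edges of a `K_r^3`-free 3-graph are deleted and new
edges with one vertex in each class are added. Under a condition on the links the result is `K_r^3`-free again.
-/

set_option autoImplicit false
open Finset

namespace Pool.Agent.K3h28.TU

/-- `H` is a 3-graph without `r` vertices all of whose triples are edges. -/
def Free (r : ℕ) {n : ℕ} (H : Finset (Finset (Fin n))) : Prop :=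
  (∀ e ∈ H, e.card = 3) ∧ ∀ S : Finset (Fin n), S.card = r → ∃ e ⊆ S, e.card = 3 ∧ e ∉ H

/-- The maximum number of edges of a `K_r^3`-free 3-graph on `n` vertices. -/
noncomputable def ex (r n : ℕ) : ℕ :=
  sSup {m : ℕ | ∃ H : Finset (Finset (Fin n)), Free r H ∧ H.card = m}

theorem card_le_ex {r n : ℕ} {H : Finset (Finset (Fin n))} (h : Free r H) : H.card ≤ ex r n := by
  refine le_csSup ⟨Fintype.card (Finset (Fin n)), ?_⟩ ⟨H, h, rfl⟩
  rintro m ⟨H', _, rfl⟩
  exact Finset.card_le_univ H'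

/-- the weight of a division of the vertices -/
noncomputable def W {n : ℕ} (w : Fin 3 → ℝ) (f : Fin n → Fin 3) : ℝ := ∏ v, w (f v)

theorem W_nonneg {n : ℕ} {w : Fin 3 → ℝ} (hw : ∀ i, 0 ≤ w i) (f : Fin n → Fin 3) : 0 ≤ W w f :=
  Finset.prod_nonneg fun _ _ => hw _

theorem sum_prod {n : ℕ} (g : Fin n → Fin 3 → ℝ) :
    ∑ f : Fin n → Fin 3, ∏ v, g v (f v) = ∏ v, ∑ t, g v t := by
  rw [Finset.prod_univ_sum]
  rw [Fintype.piFinset_univ]

theorem sumW {n : ℕ} {w : Fin 3 → ℝ} (hw : ∑ i, w i = 1) : ∑ f : Fin n → Fin 3, W w f = 1 := by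
  unfold W
  rw [sum_prod (fun _ t => w t)]
  simp [hw]

theorem three {n : ℕ} {w : Fin 3 → ℝ} (hw : ∑ i, w i = 1) {x y z : Fin n} (hxy : x ≠ y) (hxz : x ≠ z)
    (hyz : y ≠ z) (i j k : Fin 3) :
    ∑ f : Fin n → Fin 3, W w f * (if f x = i ∧ f y = j ∧ f z = k then (1 : ℝ) else 0) = w i * w j * w k := by
  have h1 : ∀ f : Fin n → Fin 3, W w f * (if f x = i ∧ f y = j ∧ f z = k then (1 : ℝ) else 0) =
      ∏ v, (w (f v) * ((if v = x then (if f v = i then (1 : ℝ) else 0) else 1) *
        ((if v = y then (if f v = j then (1 : ℝ) else 0) else 1) *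
          (if v = z then (if f v = k then (1 : ℝ) else 0) else 1)))) := by
    intro f
    rw [Finset.prod_mul_distrib, Finset.prod_mul_distrib, Finset.prod_mul_distrib]
    rw [Finset.prod_ite_eq' univ x (fun v => if f v = i then (1 : ℝ) else 0),
      Finset.prod_ite_eq' univ y (fun v => if f v = j then (1 : ℝ) else 0),
      Finset.prod_ite_eq' univ z (fun v => if f v = k then (1 : ℝ) else 0)]
    simp only [mem_univ, if_true]
    unfold W
    congr 1
    split_ifs with a b c d <;> simp_all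
  rw [Finset.sum_congr rfl fun f _ => h1 f]
  rw [sum_prod (fun v t => w t * ((if v = x then (if t = i then (1 : ℝ) else 0) else 1) *
        ((if v = y then (if t = j then (1 : ℝ) else 0) else 1) *
          (if v = z then (if t = k then (1 : ℝ) else 0) else 1))))]
  have h2 : ∀ v : Fin n, (∑ t, (w t * ((if v = x then (if t = i then (1 : ℝ) else 0) else 1) *
        ((if v = y then (if t = j then (1 : ℝ) else 0) else 1) *
          (if v = z then (if t = k then (1 : ℝ) else 0) else 1))))) =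
      (if v = x then w i else 1) * ((if v = y then w j else 1) * (if v = z then w k else 1)) := by
    intro v
    by_cases hx : v = x
    · subst hx
      simp [hxy, hxz]
    · by_cases hy : v = y
      · subst hy
        simp [hyz, hx]
      · by_cases hz : v = z
        · subst hz
          simp [hx, hy]
        · simp [hx, hy, hz, hw]
  rw [Finset.prod_congr rfl fun v _ => h2 v]
  rw [Finset.prod_mul_distrib, Finset.prod_mul_distrib]
  rw [Finset.prod_ite_eq' univ x (fun _ => w i), Finset.prod_ite_eq' univ y (fun _ => w j),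
    Finset.prod_ite_eq' univ z (fun _ => w k)]
  simp only [mem_univ, if_true]
  ring

/-- one vertex in class `0`, the others in class `2` -/
def Bad {n : ℕ} (f : Fin n → Fin 3) (e : Finset (Fin n)) : Prop :=
  ∃ a ∈ e, f a = 0 ∧ ∀ v ∈ e, v ≠ a → f v = 2

open Classical in
/-- the edges that are kept -/
noncomputable def kept {n : ℕ} (K : Finset (Finset (Fin n))) (f : Fin n → Fin 3) : Finset (Finset (Fin n)) :=
  K.filter fun e => ¬ Bad f e

open Classical in
theorem mem_kept {n : ℕ} {K : Finset (Finset (Fin n))} {f : Fin n → Fin 3} {e : Finset (Fin n)} :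
    e ∈ kept K f ↔ e ∈ K ∧ ¬ Bad f e := by
  unfold kept
  rw [mem_filter]

open Classical in
/-- the triples of vertices in the three classes which satisfy `Q` -/
noncomputable def trp {n : ℕ} (Q : Fin n → Fin n → Fin n → Prop) (f : Fin n → Fin 3) :
    Finset (Fin n × Fin n × Fin n) :=
  univ.filter fun p => (f p.1 = 0 ∧ f p.2.1 = 1 ∧ f p.2.2 = 2) ∧ Q p.1 p.2.1 p.2.2

/-- the new edges -/
noncomputable def new {n : ℕ} (Q : Fin n → Fin n → Fin n → Prop) (f : Fin n → Fin 3) : Finset (Finset (Fin n)) :=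
  (trp Q f).image fun p => {p.1, p.2.1, p.2.2}

theorem mem_new {n : ℕ} {Q : Fin n → Fin n → Fin n → Prop} {f : Fin n → Fin 3} {e : Finset (Fin n)} :
    e ∈ new Q f ↔ ∃ a b z, f a = 0 ∧ f b = 1 ∧ f z = 2 ∧ Q a b z ∧ e = {a, b, z} := by
  unfold new trp
  simp only [mem_image, mem_filter, mem_univ, true_and, Prod.exists]
  constructor
  · rintro ⟨a, b, z, ⟨⟨h1, h2, h3⟩, h4⟩, rfl⟩
    exact ⟨a, b, z, h1, h2, h3, h4, rfl⟩
  · rintro ⟨a, b, z, h1, h2, h3, h4, rfl⟩
    exact ⟨a, b, z, ⟨⟨h1, h2, h3⟩, h4⟩, rfl⟩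

theorem ne01 {n : ℕ} {f : Fin n → Fin 3} {a b : Fin n} {i j : Fin 3} (ha : f a = i) (hb : f b = j) (h : i ≠ j) :
    a ≠ b := by
  rintro rfl
  exact h (ha.symm.trans hb)

theorem card_new {n : ℕ} (Q : Fin n → Fin n → Fin n → Prop) (f : Fin n → Fin 3) :
    (new Q f).card = (trp Q f).card := by
  unfold new
  refine Finset.card_image_of_injOn ?_
  rintro ⟨a, b, z⟩ hp ⟨a', b', z'⟩ hp' h
  simp only [trp, coe_filter, mem_univ, true_and, Set.mem_ofPred_eq] at hp hp'
  obtain ⟨⟨h1, h2, h3⟩, -⟩ := hp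
  obtain ⟨⟨h1', h2', h3'⟩, -⟩ := hp'
  simp only at h
  have ha : a' ∈ ({a, b, z} : Finset (Fin n)) := by rw [h]; simp
  have hb : b' ∈ ({a, b, z} : Finset (Fin n)) := by rw [h]; simp
  have hz : z' ∈ ({a, b, z} : Finset (Fin n)) := by rw [h]; simp
  simp only [mem_insert, mem_singleton] at ha hb hz
  have e1 : a' = a := by
    rcases ha with h | h | h
    · exact h
    · rw [h, h2] at h1'; exact absurd h1' (by decide)
    · rw [h, h3] at h1'; exact absurd h1' (by decide)
  have e2 : b' = b := by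
    rcases hb with h | h | h
    · rw [h, h1] at h2'; exact absurd h2' (by decide)
    · exact h
    · rw [h, h3] at h2'; exact absurd h2' (by decide)
  have e3 : z' = z := by
    rcases hz with h | h | h
    · rw [h, h1] at h3'; exact absurd h3' (by decide)
    · rw [h, h2] at h3'; exact absurd h3' (by decide)
    · exact h
  rw [e1, e2, e3]

/-- the conditions on the new edges -/
structure Good {n : ℕ} (K : Finset (Finset (Fin n))) (Q : Fin n → Fin n → Fin n → Prop) : Prop where
  out : ∀ a b z, Q a b z → ({a, b, z} : Finset (Fin n)) ∉ K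
  left : ∀ a b z w, Q a b z → ({a, b, w} : Finset (Fin n)) ∈ K → ({a, z, w} : Finset (Fin n)) ∉ K
  right : ∀ a b z w, Q a b z → ({a, b, w} : Finset (Fin n)) ∈ K → ({b, z, w} : Finset (Fin n)) ∉ K

theorem new_types {n : ℕ} {Q : Fin n → Fin n → Fin n → Prop} {f : Fin n → Fin 3} {e : Finset (Fin n)}
    (he : e ∈ new Q f) : (∃ v ∈ e, f v = 0) ∧ (∃ v ∈ e, f v = 1) ∧ ∃ v ∈ e, f v = 2 := by
  obtain ⟨a, b, z, h1, h2, h3, _, rfl⟩ := mem_new.1 he
  exact ⟨⟨a, by simp, h1⟩, ⟨b, by simp, h2⟩, ⟨z, by simp, h3⟩⟩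

/-- no new edge is in four vertices all of whose triples are edges -/
theorem no_four {n : ℕ} {K : Finset (Finset (Fin n))} {Q : Fin n → Fin n → Fin n → Prop} (hG : Good K Q)
    (f : Fin n → Fin 3) (a b z w : Fin n) (ha : f a = 0) (hb : f b = 1) (hz : f z = 2) (hQ : Q a b z)
    (hwa : w ≠ a) (hwb : w ≠ b) (hwz : w ≠ z)
    (h1 : ({a, b, w} : Finset (Fin n)) ∈ kept K f ∪ new Q f)
    (h2 : ({a, z, w} : Finset (Fin n)) ∈ kept K f ∪ new Q f)
    (h3 : ({b, z, w} : Finset (Fin n)) ∈ kept K f ∪ new Q f) : False := by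
  have hw : f w = 0 ∨ f w = 1 ∨ f w = 2 := by
    generalize f w = t
    fin_cases t <;> simp
  rcases hw with hw | hw | hw
  · have n2 : ({a, z, w} : Finset (Fin n)) ∉ new Q f := by
      intro h
      obtain ⟨-, ⟨v, hv, hv1⟩, -⟩ := new_types h
      simp only [mem_insert, mem_singleton] at hv
      rcases hv with rfl | rfl | rfl
      · rw [ha] at hv1; exact absurd hv1 (by decide)
      · rw [hz] at hv1; exact absurd hv1 (by decide)
      · rw [hw] at hv1; exact absurd hv1 (by decide)
    have n1 : ({a, b, w} : Finset (Fin n)) ∉ new Q f := by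
      intro h
      obtain ⟨-, -, ⟨v, hv, hv1⟩⟩ := new_types h
      simp only [mem_insert, mem_singleton] at hv
      rcases hv with rfl | rfl | rfl
      · rw [ha] at hv1; exact absurd hv1 (by decide)
      · rw [hb] at hv1; exact absurd hv1 (by decide)
      · rw [hw] at hv1; exact absurd hv1 (by decide)
    have k1 := (mem_union.1 h1).resolve_right n1
    have k2 := (mem_union.1 h2).resolve_right n2
    exact hG.left a b z w hQ (mem_kept.1 k1).1 (mem_kept.1 k2).1
  · have n3 : ({b, z, w} : Finset (Fin n)) ∉ new Q f := by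
      intro h
      obtain ⟨⟨v, hv, hv1⟩, -, -⟩ := new_types h
      simp only [mem_insert, mem_singleton] at hv
      rcases hv with rfl | rfl | rfl
      · rw [hb] at hv1; exact absurd hv1 (by decide)
      · rw [hz] at hv1; exact absurd hv1 (by decide)
      · rw [hw] at hv1; exact absurd hv1 (by decide)
    have n1 : ({a, b, w} : Finset (Fin n)) ∉ new Q f := by
      intro h
      obtain ⟨-, -, ⟨v, hv, hv1⟩⟩ := new_types h
      simp only [mem_insert, mem_singleton] at hv
      rcases hv with rfl | rfl | rfl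
      · rw [ha] at hv1; exact absurd hv1 (by decide)
      · rw [hb] at hv1; exact absurd hv1 (by decide)
      · rw [hw] at hv1; exact absurd hv1 (by decide)
    have k1 := (mem_union.1 h1).resolve_right n1
    have k3 := (mem_union.1 h3).resolve_right n3
    exact hG.right a b z w hQ (mem_kept.1 k1).1 (mem_kept.1 k3).1
  · have n2 : ({a, z, w} : Finset (Fin n)) ∉ new Q f := by
      intro h
      obtain ⟨-, ⟨v, hv, hv1⟩, -⟩ := new_types h
      simp only [mem_insert, mem_singleton] at hv
      rcases hv with rfl | rfl | rfl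
      · rw [ha] at hv1; exact absurd hv1 (by decide)
      · rw [hz] at hv1; exact absurd hv1 (by decide)
      · rw [hw] at hv1; exact absurd hv1 (by decide)
    have k2 := (mem_union.1 h2).resolve_right n2
    refine (mem_kept.1 k2).2 ⟨a, by simp, ha, ?_⟩
    intro v hv hva
    simp only [mem_insert, mem_singleton] at hv
    rcases hv with rfl | rfl | rfl
    · exact absurd rfl hva
    · exact hz
    · exact hw

theorem free_aug {r n : ℕ} (hr : 4 ≤ r) {H K : Finset (Finset (Fin n))} (hH : Free r H) (hK : K ⊆ H)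
    {Q : Fin n → Fin n → Fin n → Prop} (hG : Good K Q) (f : Fin n → Fin 3) :
    Free r (kept K f ∪ new Q f) := by
  refine ⟨?_, ?_⟩
  · intro e he
    rcases mem_union.1 he with h | h
    · exact hH.1 e (hK (mem_kept.1 h).1)
    · obtain ⟨a, b, z, h1, h2, h3, _, rfl⟩ := mem_new.1 h
      exact Finset.card_eq_three.2 ⟨a, b, z, ne01 h1 h2 (by decide), ne01 h1 h3 (by decide),
        ne01 h2 h3 (by decide), rfl⟩
  · intro S hS
    by_contra hcon
    push Not at hcon
    by_cases hN : ∃ e ∈ new Q f, e ⊆ S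
    · obtain ⟨e, he, heS⟩ := hN
      obtain ⟨a, b, z, ha, hb, hz, hQ, rfl⟩ := mem_new.1 he
      have hab := ne01 ha hb (by decide : (0 : Fin 3) ≠ 1)
      have haz := ne01 ha hz (by decide : (0 : Fin 3) ≠ 2)
      have hbz := ne01 hb hz (by decide : (1 : Fin 3) ≠ 2)
      have hc : ({a, b, z} : Finset (Fin n)).card = 3 := Finset.card_eq_three.2 ⟨a, b, z, hab, haz, hbz, rfl⟩
      obtain ⟨w, hwS, hw⟩ : ∃ w ∈ S, w ∉ ({a, b, z} : Finset (Fin n)) := by
        by_contra h
        push Not at h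
        have := Finset.card_le_card (show S ⊆ {a, b, z} from h)
        omega
      simp only [mem_insert, mem_singleton, not_or] at hw
      obtain ⟨hwa, hwb, hwz⟩ := hw
      have haS : a ∈ S := heS (by simp)
      have hbS : b ∈ S := heS (by simp)
      have hzS : z ∈ S := heS (by simp)
      have sub : ∀ x y t : Fin n, x ∈ S → y ∈ S → t ∈ S → ({x, y, t} : Finset (Fin n)) ⊆ S := by
        intro x y t hx hy ht v hv
        simp only [mem_insert, mem_singleton] at hv
        rcases hv with rfl | rfl | rfl <;> assumption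
      exact no_four hG f a b z w ha hb hz hQ hwa hwb hwz
        (hcon _ (sub a b w haS hbS hwS) (Finset.card_eq_three.2 ⟨a, b, w, hab, (Ne.symm hwa), (Ne.symm hwb), rfl⟩))
        (hcon _ (sub a z w haS hzS hwS) (Finset.card_eq_three.2 ⟨a, z, w, haz, (Ne.symm hwa), (Ne.symm hwz), rfl⟩))
        (hcon _ (sub b z w hbS hzS hwS) (Finset.card_eq_three.2 ⟨b, z, w, hbz, (Ne.symm hwb), (Ne.symm hwz), rfl⟩))
    · push Not at hN
      obtain ⟨e, heS, hc, heH⟩ := hH.2 S hS
      have := hcon e heS hc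
      rcases mem_union.1 this with h | h
      · exact heH (hK (mem_kept.1 h).1)
      · exact hN e h heS

theorem card_aug {r n : ℕ} (hr : 4 ≤ r) {H K : Finset (Finset (Fin n))} (hH : Free r H) (hK : K ⊆ H)
    {Q : Fin n → Fin n → Fin n → Prop} (hG : Good K Q) (f : Fin n → Fin 3) :
    ((kept K f).card : ℝ) + (trp Q f).card ≤ ex r n := by
  have h1 := card_le_ex (free_aug hr hH hK hG f)
  have h2 : Disjoint (kept K f) (new Q f) := by
    rw [Finset.disjoint_left]
    intro e h h'
    obtain ⟨a, b, z, _, _, _, hQ, rfl⟩ := mem_new.1 h'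
    exact hG.out a b z hQ (mem_kept.1 h).1
  rw [Finset.card_union_of_disjoint h2, card_new] at h1
  exact_mod_cast h1

open Classical in
theorem exp_bad {n : ℕ} {w : Fin 3 → ℝ} (hw : ∑ i, w i = 1) {e : Finset (Fin n)} (he : e.card = 3) :
    ∑ f : Fin n → Fin 3, W w f * (if Bad f e then (1 : ℝ) else 0) = 3 * w 0 * w 2 ^ 2 := by
  obtain ⟨x, y, z, hxy, hxz, hyz, rfl⟩ := Finset.card_eq_three.1 he
  have h1 : ∀ f : Fin n → Fin 3, (if Bad f ({x, y, z} : Finset (Fin n)) then (1 : ℝ) else 0) =
      (if f x = 0 ∧ f y = 2 ∧ f z = 2 then (1 : ℝ) else 0) +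
      (if f x = 2 ∧ f y = 0 ∧ f z = 2 then (1 : ℝ) else 0) +
      (if f x = 2 ∧ f y = 2 ∧ f z = 0 then (1 : ℝ) else 0) := by
    intro f
    have h2 : Bad f ({x, y, z} : Finset (Fin n)) ↔ (f x = 0 ∧ f y = 2 ∧ f z = 2) ∨
        (f x = 2 ∧ f y = 0 ∧ f z = 2) ∨ (f x = 2 ∧ f y = 2 ∧ f z = 0) := by
      unfold Bad
      constructor
      · rintro ⟨a, ha, h0, h⟩
        simp only [mem_insert, mem_singleton] at ha h
        rcases ha with rfl | rfl | rfl
        · exact Or.inl ⟨h0, h y (by simp) hxy.symm, h z (by simp) hxz.symm⟩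
        · exact Or.inr (Or.inl ⟨h x (by simp) hxy, h0, h z (by simp) hyz.symm⟩)
        · exact Or.inr (Or.inr ⟨h x (by simp) hxz, h y (by simp) hyz, h0⟩)
      · rintro (⟨h1, h2, h3⟩ | ⟨h1, h2, h3⟩ | ⟨h1, h2, h3⟩)
        · refine ⟨x, by simp, h1, ?_⟩
          intro v hv hvx
          simp only [mem_insert, mem_singleton] at hv
          rcases hv with rfl | rfl | rfl
          · exact absurd rfl hvx
          · exact h2
          · exact h3
        · refine ⟨y, by simp, h2, ?_⟩
          intro v hv hvx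
          simp only [mem_insert, mem_singleton] at hv
          rcases hv with rfl | rfl | rfl
          · exact h1
          · exact absurd rfl hvx
          · exact h3
        · refine ⟨z, by simp, h3, ?_⟩
          intro v hv hvx
          simp only [mem_insert, mem_singleton] at hv
          rcases hv with rfl | rfl | rfl
          · exact h1
          · exact h2
          · exact absurd rfl hvx
    rw [if_congr h2 rfl rfl]
    have hd : ∀ t : Fin 3, t = 0 ∨ t = 1 ∨ t = 2 := by decide
    rcases hd (f x) with a | a | a <;> rcases hd (f y) with b | b | b <;> rcases hd (f z) with c | c | c <;>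
      simp [a, b, c]
  rw [Finset.sum_congr rfl fun f _ => by rw [h1 f, mul_add, mul_add]]
  rw [Finset.sum_add_distrib, Finset.sum_add_distrib, three hw hxy hxz hyz, three hw hxy hxz hyz,
    three hw hxy hxz hyz]
  ring

open Classical in
/-- **The augmentation inequality.** -/
theorem aug {r n : ℕ} (hr : 4 ≤ r) {H K : Finset (Finset (Fin n))} (hH : Free r H) (hK : K ⊆ H)
    {Q : Fin n → Fin n → Fin n → Prop} (hG : Good K Q) {w : Fin 3 → ℝ} (hw : ∑ i, w i = 1)
    (hw0 : ∀ i, 0 ≤ w i) :
    (K.card : ℝ) * (1 - 3 * w 0 * w 2 ^ 2) + w 0 * w 1 * w 2 *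
      ((univ.filter fun p : Fin n × Fin n × Fin n =>
        (p.1 ≠ p.2.1 ∧ p.1 ≠ p.2.2 ∧ p.2.1 ≠ p.2.2) ∧ Q p.1 p.2.1 p.2.2).card : ℝ) ≤ ex r n := by
  have h1 : ∑ f : Fin n → Fin 3, W w f * (((kept K f).card : ℝ) + (trp Q f).card) ≤
      ∑ f : Fin n → Fin 3, W w f * (ex r n : ℝ) :=
    Finset.sum_le_sum fun f _ => mul_le_mul_of_nonneg_left (card_aug hr hH hK hG f) (W_nonneg hw0 f)
  rw [← Finset.sum_mul, sumW hw, one_mul] at h1
  have h2 : ∑ f : Fin n → Fin 3, W w f * (((kept K f).card : ℝ) + (trp Q f).card) =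
      (K.card : ℝ) * (1 - 3 * w 0 * w 2 ^ 2) + w 0 * w 1 * w 2 *
      ((univ.filter fun p : Fin n × Fin n × Fin n =>
        (p.1 ≠ p.2.1 ∧ p.1 ≠ p.2.2 ∧ p.2.1 ≠ p.2.2) ∧ Q p.1 p.2.1 p.2.2).card : ℝ) := by
    simp only [mul_add]
    rw [Finset.sum_add_distrib]
    congr 1
    · have h3 : ∀ f : Fin n → Fin 3, ((kept K f).card : ℝ) =
          ∑ e ∈ K, (1 - (if Bad f e then (1 : ℝ) else 0)) := by
        intro f
        unfold kept
        rw [Finset.card_filter]
        push_cast
        refine Finset.sum_congr rfl fun e _ => ?_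
        split_ifs <;> simp_all
      rw [Finset.sum_congr rfl fun f _ => by rw [h3 f, Finset.mul_sum]]
      rw [Finset.sum_comm]
      rw [Finset.sum_congr rfl (g := fun _ => (1 - 3 * w 0 * w 2 ^ 2))]
      · rw [Finset.sum_const, nsmul_eq_mul]
      · intro e he
        simp only [mul_sub, mul_one]
        rw [Finset.sum_sub_distrib, sumW hw, exp_bad hw (hH.1 e (hK he))]
    · have h3 : ∀ f : Fin n → Fin 3, ((trp Q f).card : ℝ) =
          ∑ p ∈ (univ.filter fun p : Fin n × Fin n × Fin n =>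
            (p.1 ≠ p.2.1 ∧ p.1 ≠ p.2.2 ∧ p.2.1 ≠ p.2.2) ∧ Q p.1 p.2.1 p.2.2),
            (if f p.1 = 0 ∧ f p.2.1 = 1 ∧ f p.2.2 = 2 then (1 : ℝ) else 0) := by
        intro f
        unfold trp
        rw [Finset.card_filter]
        push_cast
        rw [Finset.sum_filter]
        refine Finset.sum_congr rfl fun p _ => ?_
        by_cases hf : f p.1 = 0 ∧ f p.2.1 = 1 ∧ f p.2.2 = 2
        · have d1 : p.1 ≠ p.2.1 := ne01 hf.1 hf.2.1 (by decide)
          have d2 : p.1 ≠ p.2.2 := ne01 hf.1 hf.2.2 (by decide)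
          have d3 : p.2.1 ≠ p.2.2 := ne01 hf.2.1 hf.2.2 (by decide)
          by_cases hq : Q p.1 p.2.1 p.2.2 <;> simp [hf, hq, d1, d2, d3]
        · rw [if_neg (fun h => hf h.1)]
          simp [hf]
      rw [Finset.sum_congr rfl fun f _ => by rw [h3 f, Finset.mul_sum]]
      rw [Finset.sum_comm]
      rw [Finset.sum_congr rfl (g := fun _ => w 0 * w 1 * w 2)]
      · rw [Finset.sum_const, nsmul_eq_mul]
        ring
      · intro p hp
        obtain ⟨-, ⟨d1, d2, d3⟩, -⟩ := mem_filter.1 hp
        exact three hw d1 d2 d3 0 1 2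
  rw [h2] at h1
  exact h1

end Pool.Agent.K3h28.TU
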