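import Pool.Agent.K3h28.TU.Comp

/-!
# An explicit form: four fifths of the pairs
-/

set_option autoImplicit false
open Finset

namespace Pool.Agent.K3h28.TU

theorem card_le_cube {n r : ℕ} {H : Finset (Finset (Fin n))} (hH : Free r H) :
    (H.card : ℝ) ≤ (n : ℝ) ^ 3 / 6 := by
  have h1 : H ⊆ (univ : Finset (Fin n)).powersetCard 3 := fun e he =>
    Finset.mem_powersetCard.2 ⟨Finset.subset_univ _, hH.1 e he⟩
  have h2 := Finset.card_le_card h1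
  rw [Finset.card_powersetCard, Finset.card_univ, Fintype.card_fin] at h2
  have h3 : (n.choose 3 : ℝ) ≤ (n : ℝ) ^ 3 / (Nat.factorial 3 : ℕ) := Nat.choose_le_pow_div 3 n
  have h4 : (H.card : ℝ) ≤ (n.choose 3 : ℝ) := by exact_mod_cast h2
  have h5 : ((Nat.factorial 3 : ℕ) : ℝ) = 6 := by norm_num [Nat.factorial]
  rw [h5] at h3
  exact h4.trans h3

/-- **Four fifths of the pairs.** -/
theorem four_fifths {r n : ℕ} (hr : 4 ≤ r) (hn : 100 ≤ n) {H : Finset (Finset (Fin n))}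
    (hH : Free r H) (hc : (ex r n : ℝ) ≤ H.card + (n : ℝ) ^ 3 / 2600) :
    ∃ p ∈ pairs n, 4 / 5 * ((pairs n).card : ℝ) ≤ ((comp H p).card : ℝ) := by
  by_contra hcon
  push Not at hcon
  have hn2 : (100 : ℝ) ≤ n := by exact_mod_cast hn
  have hNr : ((pairs n).card : ℝ) = (n : ℝ) * (n - 1) / 2 := card_pairs n
  have hN0 : (0 : ℝ) < (pairs n).card := by
    rw [hNr]
    have : 0 < (n : ℝ) - 1 := by linarith
    positivity
  obtain ⟨P, hPs, hPc, hPq⟩ := balanced (H := H) (δ := 1 / 5) (by norm_num) (by norm_num)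
    (by exact_mod_cast hN0) (fun p hp => by
      have := hcon p hp
      norm_num
      linarith)
  have h1 := main_ineq (γ := 1 / 20) hr hH hPs (by norm_num) (by norm_num)
  rw [mixed_closed hPc, Nat.cast_zero, add_zero] at h1
  have h3 := card_le_cube hH
  rw [hNr] at hPq
  set q : ℝ := (P.card : ℝ) * (pairs n \ P).card with hq
  clear_value q
  have h4 : (ex r n : ℝ) - H.card + (1 / 20) ^ 2 * (1 - 1 / 20) * H.card ≤
      (1 / 2600 + (1 / 20) ^ 2 * (1 - 1 / 20) * (1 / 6)) * (n : ℝ) ^ 3 := by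
    nlinarith
  have h5 : (2 * (n : ℝ) + 1) * ((ex r n : ℝ) - H.card + (1 / 20) ^ 2 * (1 - 1 / 20) * H.card) ≤
      (2 * (n : ℝ) + 1) * ((1 / 2600 + (1 / 20) ^ 2 * (1 - 1 / 20) * (1 / 6)) *
        (n : ℝ) ^ 3) := mul_le_mul_of_nonneg_left h4 (by positivity)
  have h6 : 8 / 9 * (1 / 20) * (1 - 1 / 20) ^ 2 * (1 / 5 * (1 - 1 / 5) * ((n : ℝ) * (n - 1) / 2) ^ 2) ≤
      8 / 9 * (1 / 20) * (1 - 1 / 20 : ℝ) ^ 2 * q := mul_le_mul_of_nonneg_left hPq (by norm_num)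
  have h1' : 8 / 9 * (1 / 20) * (1 - 1 / 20 : ℝ) ^ 2 * q ≤
      (2 * (n : ℝ) + 1) * ((ex r n : ℝ) - H.card + (1 / 20) ^ 2 * (1 - 1 / 20) * H.card) := by
    rw [hq]
    linarith
  have h7 := h6.trans (h1'.trans h5)
  have h8 : 0 < (n : ℝ) ^ 2 := by positivity
  have h9 : 8 / 9 * (1 / 20) * (1 - 1 / 20 : ℝ) ^ 2 * (1 / 5 * (1 - 1 / 5) * (((n : ℝ) - 1) / 2) ^ 2) ≤
      (2 * (n : ℝ) + 1) * ((1 / 2600 + (1 / 20) ^ 2 * (1 - 1 / 20) * (1 / 6)) * n) := by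
    refine le_of_mul_le_mul_left ?_ h8
    calc _ = 8 / 9 * (1 / 20) * (1 - 1 / 20 : ℝ) ^ 2 * (1 / 5 * (1 - 1 / 5) * ((n : ℝ) * (n - 1) / 2) ^ 2) := by ring
      _ ≤ _ := h7
      _ = _ := by ring
  nlinarith

end Pool.Agent.K3h28.TU
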