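import Pool.Agent.K3h28.TU.Link
import Pool.Agent.K3h28.TU.Num

/-!
# Sets of pairs with small codegrees
-/

set_option autoImplicit false
open Finset

namespace Pool.Agent.K3h28.TU

variable {n : ℕ}

open Classical in
theorem two_card {D : Finset (Finset (Fin n))} (hD : D ⊆ pairs n) :
    2 * D.card = (univ.filter fun p : Fin n × Fin n => ({p.1, p.2} : Finset (Fin n)) ∈ D).card := by
  have h0 : Set.MapsTo (fun p : Fin n × Fin n => ({p.1, p.2} : Finset (Fin n)))
      ((univ.filter fun p : Fin n × Fin n => ({p.1, p.2} : Finset (Fin n)) ∈ D : Finset (Fin n × Fin n)) :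
        Set (Fin n × Fin n)) (D : Set (Finset (Fin n))) := by
    intro p hp
    rw [mem_coe, mem_filter] at hp
    exact hp.2
  rw [Finset.card_eq_sum_card_fiberwise h0]
  rw [Finset.sum_congr rfl (g := fun _ => 2)]
  · rw [Finset.sum_const, smul_eq_mul, mul_comm]
  · intro p hp
    obtain ⟨x, y, hxy, rfl⟩ := Finset.card_eq_two.1 (Finset.mem_powersetCard.1 (hD hp)).2
    have h1 : (filter (fun q : Fin n × Fin n => ({q.1, q.2} : Finset (Fin n)) = {x, y})
        (univ.filter fun p : Fin n × Fin n => ({p.1, p.2} : Finset (Fin n)) ∈ D)) = {(x, y), (y, x)} := by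
      ext ⟨a, b⟩
      simp only [mem_filter, mem_univ, true_and, mem_insert, mem_singleton, Prod.mk.injEq]
      constructor
      · rintro ⟨-, h⟩
        have ha : a ∈ ({x, y} : Finset (Fin n)) := by rw [← h]; simp
        have hb : b ∈ ({x, y} : Finset (Fin n)) := by rw [← h]; simp
        have hx : x ∈ ({a, b} : Finset (Fin n)) := by rw [h]; simp
        have hy : y ∈ ({a, b} : Finset (Fin n)) := by rw [h]; simp
        simp only [mem_insert, mem_singleton] at ha hb hx hy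
        rcases ha with rfl | rfl
        · rcases hy with h' | h'
          · exact absurd h'.symm hxy
          · exact Or.inl ⟨rfl, h'.symm⟩
        · rcases hx with h' | h'
          · exact absurd h' hxy
          · exact Or.inr ⟨rfl, h'.symm⟩
      · rintro (⟨rfl, rfl⟩ | ⟨rfl, rfl⟩)
        · exact ⟨hp, rfl⟩
        · rw [Finset.pair_comm]
          exact ⟨hp, rfl⟩
    rw [h1]
    refine Finset.card_pair ?_
    intro h
    exact hxy (Prod.mk.inj h).1

open Classical in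
theorem trip_card {D : Finset (Finset (Fin n))} (hD : D ⊆ pairs n) :
    2 * (D.card : ℝ) * ((n : ℝ) - 2) ≤ ((univ.filter fun p : Fin n × Fin n × Fin n =>
      (p.1 ≠ p.2.1 ∧ p.1 ≠ p.2.2 ∧ p.2.1 ≠ p.2.2) ∧ ({p.1, p.2.1} : Finset (Fin n)) ∈ D).card : ℝ) := by
  have h1 : (2 * (D.card : ℝ)) = ∑ a : Fin n, ∑ b : Fin n, (if ({a, b} : Finset (Fin n)) ∈ D then (1 : ℝ) else 0) := by
    have h2 := two_card hD
    have h3 : (2 * (D.card : ℝ)) = ((univ.filter fun p : Fin n × Fin n =>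
      ({p.1, p.2} : Finset (Fin n)) ∈ D).card : ℝ) := by exact_mod_cast h2
    rw [h3, Finset.card_filter]
    push_cast
    rw [Fintype.sum_prod_type]
  rw [h1, Finset.card_filter]
  push_cast
  rw [Fintype.sum_prod_type, Finset.sum_mul]
  refine Finset.sum_le_sum fun a _ => ?_
  rw [Fintype.sum_prod_type, Finset.sum_mul]
  refine Finset.sum_le_sum fun b _ => ?_
  by_cases hab : ({a, b} : Finset (Fin n)) ∈ D
  · rw [if_pos hab, one_mul]
    have hne : a ≠ b := by
      rintro rfl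
      have := (Finset.mem_powersetCard.1 (hD hab)).2
      simp at this
    have h4 : (∑ z : Fin n, (if ((a, b, z).1 ≠ (a, b, z).2.1 ∧ (a, b, z).1 ≠ (a, b, z).2.2 ∧
        (a, b, z).2.1 ≠ (a, b, z).2.2) ∧ ({(a, b, z).1, (a, b, z).2.1} : Finset (Fin n)) ∈ D then (1 : ℝ)
          else 0)) = ((univ \ ({a, b} : Finset (Fin n))).card : ℝ) := by
      rw [← Finset.sum_filter, Finset.sum_const, nsmul_eq_mul, mul_one]
      congr 2
      ext z
      simp only [mem_filter, mem_univ, true_and, mem_sdiff, mem_insert, mem_singleton, hab, and_true, not_or]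
      constructor
      · rintro ⟨-, h1, h2⟩
        exact ⟨Ne.symm h1, Ne.symm h2⟩
      · rintro ⟨h1, h2⟩
        exact ⟨hne, Ne.symm h1, Ne.symm h2⟩
    rw [h4]
    have h5 : (univ \ ({a, b} : Finset (Fin n))).card + 2 = n := by
      have h6 := Finset.card_sdiff_add_card_eq_card (Finset.subset_univ ({a, b} : Finset (Fin n)))
      rw [Finset.card_pair hne, Finset.card_univ, Fintype.card_fin] at h6
      exact h6
    have h6 : ((univ \ ({a, b} : Finset (Fin n))).card : ℝ) + 2 = n := by exact_mod_cast h5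
    linarith
  · rw [if_neg hab, zero_mul]
    exact Finset.sum_nonneg fun z _ => by split_ifs <;> norm_num

open Classical in
/-- **Sets of pairs meet many edges.** -/
theorem cover {r : ℕ} (hr : 4 ≤ r) {H : Finset (Finset (Fin n))} (hH : Free r H)
    {D : Finset (Finset (Fin n))} (hD : D ⊆ pairs n) :
    ((D.card : ℝ) * ((n : ℝ) - 2)) ^ 2 ≤ 12 * (n : ℝ) ^ 3 *
      ((ex r n : ℝ) - H.card + ((H.filter fun e => ∃ p ∈ D, p ⊆ e).card : ℝ)) := by
  have hex : (H.card : ℝ) ≤ ex r n := by exact_mod_cast card_le_ex hH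
  have hm0 : (0 : ℝ) ≤ ((H.filter fun e => ∃ p ∈ D, p ⊆ e).card : ℝ) := by positivity
  have hDc : (D.card : ℝ) ≤ (n : ℝ) * (n - 1) / 2 := by
    rw [← card_pairs n]
    exact_mod_cast Finset.card_le_card hD
  rcases Nat.lt_or_ge n 2 with hn | hn
  · have h0 : (D.card : ℝ) ≤ 0 := by
      refine hDc.trans ?_
      interval_cases n <;> norm_num
    have h1 : (D.card : ℝ) = 0 := le_antisymm h0 (by positivity)
    rw [h1]
    have : 0 ≤ 12 * (n : ℝ) ^ 3 *
      ((ex r n : ℝ) - H.card + ((H.filter fun e => ∃ p ∈ D, p ⊆ e).card : ℝ)) := by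
      have : 0 ≤ (ex r n : ℝ) - H.card + ((H.filter fun e => ∃ p ∈ D, p ⊆ e).card : ℝ) := by linarith
      positivity
    simpa using this
  have hn2 : (2 : ℝ) ≤ n := by exact_mod_cast hn
  have hN : (0 : ℝ) < (n : ℝ) ^ 3 := by positivity
  set d : ℝ := (D.card : ℝ) * ((n : ℝ) - 2) with hd
  have hd0 : 0 ≤ d := by
    rw [hd]
    have : 0 ≤ (n : ℝ) - 2 := by linarith
    positivity
  have hdN : d ≤ (n : ℝ) ^ 3 / 2 := by
    rw [hd]
    have h1 : (D.card : ℝ) * ((n : ℝ) - 2) ≤ (n : ℝ) * (n - 1) / 2 * ((n : ℝ) - 2) :=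
      mul_le_mul_of_nonneg_right hDc (by linarith)
    nlinarith
  set K := H.filter fun e => ¬ ∃ p ∈ D, p ⊆ e with hK
  have hKH : K ⊆ H := Finset.filter_subset _ _
  have hKc : ((H.filter fun e => ∃ p ∈ D, p ⊆ e).card : ℝ) + K.card = H.card := by
    rw [hK]
    exact_mod_cast Finset.card_filter_add_card_filter_not (s := H) (fun e => ∃ p ∈ D, p ⊆ e)
  have hnotK : ∀ a b w : Fin n, ({a, b} : Finset (Fin n)) ∈ D → ({a, b, w} : Finset (Fin n)) ∉ K := by
    intro a b w hab h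
    refine (mem_filter.1 h).2 ⟨{a, b}, hab, ?_⟩
    intro v hv
    simp only [mem_insert, mem_singleton] at hv ⊢
    rcases hv with rfl | rfl <;> simp
  have hG : Good K (fun a b _ => ({a, b} : Finset (Fin n)) ∈ D) :=
    ⟨fun a b z h => hnotK a b z h, fun a b z w h h' => absurd h' (hnotK a b w h),
      fun a b z w h h' => absurd h' (hnotK a b w h)⟩
  set N : ℝ := (n : ℝ) ^ 3 with hNdef
  set γ : ℝ := 2 / 5 * (d / N) with hγ
  have hx : d / N ≤ 1 / 2 := by
    rw [div_le_iff₀ hN]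
    linarith
  have hx0 : 0 ≤ d / N := by positivity
  have hγ0 : 0 ≤ γ := by rw [hγ]; positivity
  have hγ1 : γ ≤ 1 / 5 := by rw [hγ]; linarith
  have haug := aug hr hH hKH hG (w := ![(1 - γ) / 3, 2 * (1 - γ) / 3, γ])
    (by simp [Fin.sum_univ_three]; ring)
    (by intro i; fin_cases i <;> simp <;> linarith)
  simp only [Matrix.cons_val_zero, Matrix.cons_val_one, Matrix.cons_val] at haug
  have hq := trip_card hD
  set q : ℝ := ((univ.filter fun p : Fin n × Fin n × Fin n =>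
      (p.1 ≠ p.2.1 ∧ p.1 ≠ p.2.2 ∧ p.2.1 ≠ p.2.2) ∧ ({p.1, p.2.1} : Finset (Fin n)) ∈ D).card : ℝ) with hqdef
  have hq' : 2 * d ≤ q := by rw [hd]; linarith
  have hKn : (K.card : ℝ) ≤ N / 6 := by
    have h1 := card_le_cube hH
    have h2 : (K.card : ℝ) ≤ H.card := by exact_mod_cast Finset.card_le_card hKH
    exact h2.trans h1
  have haug' : (K.card : ℝ) * (1 - 3 * ((1 - γ) / 3) * γ ^ 2) + (1 - γ) / 3 * (2 * (1 - γ) / 3) * γ * q ≤ ex r n := by
    refine le_trans (le_of_eq ?_) haug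
    rw [hqdef]
    congr!
  clear_value q
  have h1 : (K.card : ℝ) * (3 * ((1 - γ) / 3) * γ ^ 2) ≤ γ ^ 2 * (N / 6) := by
    have h3 : (3 * ((1 - γ) / 3) * γ ^ 2) ≤ γ ^ 2 := by nlinarith [sq_nonneg γ]
    have h4 : (0 : ℝ) ≤ K.card := by positivity
    calc (K.card : ℝ) * (3 * ((1 - γ) / 3) * γ ^ 2) ≤ K.card * γ ^ 2 :=
          mul_le_mul_of_nonneg_left h3 h4
      _ ≤ (N / 6) * γ ^ 2 := mul_le_mul_of_nonneg_right hKn (sq_nonneg γ)
      _ = _ := by ring
  have h2 : (2 / 9 * (16 / 25) * γ) * (2 * d) ≤ (1 - γ) / 3 * (2 * (1 - γ) / 3) * γ * q := by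
    have h3 : (16 : ℝ) / 25 ≤ (1 - γ) ^ 2 := by nlinarith
    have h4 : (2 / 9 * (16 / 25) * γ) * (2 * d) ≤ (2 / 9 * (1 - γ) ^ 2 * γ) * (2 * d) := by
      refine mul_le_mul_of_nonneg_right ?_ (by positivity)
      refine mul_le_mul_of_nonneg_right ?_ hγ0
      linarith
    have h5 : (2 / 9 * (1 - γ) ^ 2 * γ) * (2 * d) ≤ (2 / 9 * (1 - γ) ^ 2 * γ) * q :=
      mul_le_mul_of_nonneg_left hq' (by positivity)
    calc _ ≤ _ := h4.trans h5
      _ = _ := by ring
  have h3 : (2 / 9 * (16 / 25) * γ) * (2 * d) ≤ (ex r n : ℝ) - H.card +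
      ((H.filter fun e => ∃ p ∈ D, p ⊆ e).card : ℝ) + γ ^ 2 * (N / 6) := by
    nlinarith
  have h4 : (2 / 9 * (16 / 25) * γ) * (2 * d) - γ ^ 2 * (N / 6) = 98 / 1125 * (d ^ 2 / N) := by
    rw [hγ]
    field_simp
    ring
  have h5 : 98 / 1125 * (d ^ 2 / N) ≤ (ex r n : ℝ) - H.card +
      ((H.filter fun e => ∃ p ∈ D, p ⊆ e).card : ℝ) := by linarith
  have h6 : d ^ 2 / N * N = d ^ 2 := by field_simp
  have h7 := mul_le_mul_of_nonneg_right h5 hN.le
  have h8 : 0 ≤ d ^ 2 := sq_nonneg d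
  nlinarith

open Classical in
/-- **Few pairs have a small codegree.** -/
theorem small_codegrees {r : ℕ} (hr : 4 ≤ r) (hn : 4 ≤ n) {H : Finset (Finset (Fin n))} (hH : Free r H)
    {η : ℝ} (hη : 0 < η) (hex : (ex r n : ℝ) ≤ H.card + η ^ 2 / 96 * (n : ℝ) ^ 3) :
    (((pairs n).filter fun p => ((H.filter fun e => p ⊆ e).card : ℝ) < η / 96 * n).card : ℝ) ≤
      η * (n : ℝ) ^ 2 := by
  set D := (pairs n).filter fun p => ((H.filter fun e => p ⊆ e).card : ℝ) < η / 96 * n with hD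
  have h1 := cover hr hH (D := D) (Finset.filter_subset _ _)
  have hn4 : (4 : ℝ) ≤ n := by exact_mod_cast hn
  have hn0 : (0 : ℝ) < n := by linarith
  have h2 : ((H.filter fun e => ∃ p ∈ D, p ⊆ e).card : ℝ) ≤ D.card * (η / 96 * n) := by
    have h3 : (H.filter fun e => ∃ p ∈ D, p ⊆ e) ⊆ D.biUnion fun p => H.filter fun e => p ⊆ e := by
      intro e he
      obtain ⟨he1, p, hp, hpe⟩ := mem_filter.1 he
      exact mem_biUnion.2 ⟨p, hp, mem_filter.2 ⟨he1, hpe⟩⟩
    have h4 : ((H.filter fun e => ∃ p ∈ D, p ⊆ e).card : ℝ) ≤ ∑ p ∈ D, ((H.filter fun e => p ⊆ e).card : ℝ) := by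
      exact_mod_cast (Finset.card_le_card h3).trans Finset.card_biUnion_le
    refine h4.trans ?_
    have h5 : ∑ p ∈ D, ((H.filter fun e => p ⊆ e).card : ℝ) ≤ ∑ p ∈ D, (η / 96 * n) :=
      Finset.sum_le_sum fun p hp => (mem_filter.1 hp).2.le
    rwa [Finset.sum_const, nsmul_eq_mul] at h5
  by_contra hcon
  push Not at hcon
  set m : ℝ := ((H.filter fun e => ∃ p ∈ D, p ⊆ e).card : ℝ) with hm
  set d : ℝ := (D.card : ℝ) with hd
  clear_value m d
  have hd0 : 0 < d := lt_trans (by positivity) hcon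
  have h3 : (d * (n : ℝ) / 2) ^ 2 ≤ 12 * (n : ℝ) ^ 3 * (η ^ 2 / 96 * (n : ℝ) ^ 3 + d * (η / 96 * n)) := by
    have h4 : (d * (n : ℝ) / 2) ^ 2 ≤ (d * ((n : ℝ) - 2)) ^ 2 := by
      have h5 : 0 ≤ d * (n : ℝ) / 2 := by positivity
      have h6 : d * (n : ℝ) / 2 ≤ d * ((n : ℝ) - 2) := by nlinarith
      exact pow_le_pow_left₀ h5 h6 2
    refine h4.trans (h1.trans ?_)
    refine mul_le_mul_of_nonneg_left ?_ (by positivity)
    linarith
  have h4 : d ^ 2 ≤ 1 / 2 * η ^ 2 * (n : ℝ) ^ 4 + 1 / 2 * η * (n : ℝ) ^ 2 * d := by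
    have h5 : 0 < (n : ℝ) ^ 2 := by positivity
    refine le_of_mul_le_mul_left ?_ h5
    nlinarith
  have h5 : η * (n : ℝ) ^ 2 * (η * (n : ℝ) ^ 2) < d * d := by
    have : 0 < η * (n : ℝ) ^ 2 := by positivity
    nlinarith
  have h6 : η * (n : ℝ) ^ 2 * d < d * d := by nlinarith
  nlinarith

end Pool.Agent.K3h28.TU
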