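import Pool.Agent.K3h28.TU.Tight

/-!
# Tight components
-/

set_option autoImplicit false
open Finset

namespace Pool.Agent.K3h28.TU

/-- `p` and `q` are pairs of vertices in a common edge of `H`. -/
def Adj {n : ℕ} (H : Finset (Finset (Fin n))) (p q : Finset (Fin n)) : Prop :=
  p.card = 2 ∧ q.card = 2 ∧ ∃ e ∈ H, p ⊆ e ∧ q ⊆ e

open Classical in
/-- the tight component of the pair `p` -/
noncomputable def comp {n : ℕ} (H : Finset (Finset (Fin n))) (p : Finset (Fin n)) : Finset (Finset (Fin n)) :=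
  (pairs n).filter fun q => Relation.ReflTransGen (Adj H) p q

/-- unions of tight components -/
def Closed {n : ℕ} (H P : Finset (Finset (Fin n))) : Prop := ∀ p ∈ P, ∀ q, Adj H p q → q ∈ P

variable {n : ℕ} {H P : Finset (Finset (Fin n))}

theorem mixed_closed (hP : Closed H P) : mixed H P = 0 := by
  classical
  unfold mixed
  rw [Finset.card_eq_zero, Finset.filter_eq_empty_iff]
  intro e he h
  refine h fun p q hp hq cp cq => ⟨fun hm => ?_, fun hm => ?_⟩
  · exact hP p hm q ⟨cp, cq, e, he, hp, hq⟩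
  · exact hP q hm p ⟨cq, cp, e, he, hq, hp⟩

theorem closed_comp (p : Finset (Fin n)) : Closed H (comp H p) := by
  classical
  intro q hq q' h
  unfold comp at hq ⊢
  rw [mem_filter] at hq ⊢
  exact ⟨mem_powersetCard.2 ⟨subset_univ _, h.2.1⟩, hq.2.tail h⟩

theorem self_mem_comp {p : Finset (Fin n)} (hp : p ∈ pairs n) : p ∈ comp H p := by
  classical
  unfold comp
  rw [mem_filter]
  exact ⟨hp, Relation.ReflTransGen.refl⟩

theorem comp_sub (p : Finset (Fin n)) : comp H p ⊆ pairs n := by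
  classical
  unfold comp
  exact Finset.filter_subset _ _

theorem closed_union {P' : Finset (Finset (Fin n))} (h : Closed H P) (h' : Closed H P') : Closed H (P ∪ P') := by
  intro p hp q hq
  rcases mem_union.1 hp with hp | hp
  · exact mem_union_left _ (h p hp q hq)
  · exact mem_union_right _ (h' p hp q hq)

theorem num {x N δ : ℝ} (h1 : δ * N ≤ x) (h2 : x ≤ (1 - δ) * N) : δ * (1 - δ) * N ^ 2 ≤ x * (N - x) := by
  nlinarith [mul_nonneg (sub_nonneg.2 h1) (sub_nonneg.2 h2)]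

theorem balanced {δ : ℝ} (h0 : 0 < δ) (h4 : δ ≤ 1 / 4) (hN : 0 < (pairs n).card)
    (h : ∀ p ∈ pairs n, ((comp H p).card : ℝ) < (1 - δ) * (pairs n).card) :
    ∃ P : Finset (Finset (Fin n)), P ⊆ pairs n ∧ Closed H P ∧
      δ * (1 - δ) * ((pairs n).card : ℝ) ^ 2 ≤ (P.card : ℝ) * (pairs n \ P).card := by
  classical
  set N := (pairs n).card with hNdef
  have hNr : (0 : ℝ) < N := by exact_mod_cast hN
  have key : ∀ P : Finset (Finset (Fin n)), P ⊆ pairs n → ((pairs n \ P).card : ℝ) = (N : ℝ) - P.card := by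
    intro P hP
    rw [Finset.card_sdiff_of_subset hP, Nat.cast_sub (Finset.card_le_card hP)]
  obtain ⟨P, hPm, hmax⟩ := Finset.exists_max_image
    ((pairs n).powerset.filter fun P => Closed H P ∧ 2 * P.card ≤ N) (fun P => P.card)
    ⟨∅, by
      rw [mem_filter, mem_powerset]
      exact ⟨Finset.empty_subset _, fun p hp => absurd hp (Finset.notMem_empty p), by simp⟩⟩
  rw [mem_filter, mem_powerset] at hPm
  obtain ⟨hPs, hPc, hP2⟩ := hPm
  have hP2r : 2 * (P.card : ℝ) ≤ N := by exact_mod_cast hP2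
  by_cases hx : δ * N ≤ (P.card : ℝ)
  · refine ⟨P, hPs, hPc, ?_⟩
    rw [key P hPs]
    refine num hx ?_
    have := mul_le_mul_of_nonneg_right h4 hNr.le
    linarith
  · push Not at hx
    obtain ⟨p, hp, hpP⟩ : ∃ p ∈ pairs n, p ∉ P := by
      by_contra hcon
      push Not at hcon
      have := Finset.card_le_card (show pairs n ⊆ P from hcon)
      omega
    have hC := closed_comp (H := H) p
    have hCs := comp_sub (H := H) p
    have hU : 2 * (P ∪ comp H p).card > N := by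
      by_contra hcon
      push Not at hcon
      have h1 := hmax (P ∪ comp H p) (by
        rw [mem_filter, mem_powerset]
        exact ⟨Finset.union_subset hPs hCs, closed_union hPc hC, hcon⟩)
      have h2 : P ⊂ P ∪ comp H p := by
        rw [Finset.ssubset_iff_of_subset Finset.subset_union_left]
        exact ⟨p, mem_union_right _ (self_mem_comp hp), hpP⟩
      have := Finset.card_lt_card h2
      omega
    have hU2 := Finset.card_union_le P (comp H p)
    have hU3 : (N : ℝ) < 2 * ((P.card : ℝ) + (comp H p).card) := by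
      have : N < 2 * (P.card + (comp H p).card) := by omega
      exact_mod_cast this
    refine ⟨comp H p, hCs, hC, ?_⟩
    rw [key _ hCs]
    refine num ?_ (h p hp).le
    have := mul_le_mul_of_nonneg_right h4 hNr.le
    linarith

theorem card_pairs (n : ℕ) : ((pairs n).card : ℝ) = (n : ℝ) * (n - 1) / 2 := by
  unfold pairs
  rw [Finset.card_powersetCard, Finset.card_univ, Fintype.card_fin, Nat.cast_choose_two]

theorem card_le_sixth (h3 : ∀ e ∈ H, e.card = 3) : (H.card : ℝ) ≤ (n : ℝ) ^ 3 / 6 := by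
  have h1 : H ⊆ (univ : Finset (Fin n)).powersetCard 3 := fun e he =>
    mem_powersetCard.2 ⟨subset_univ _, h3 e he⟩
  have h2 := Finset.card_le_card h1
  rw [Finset.card_powersetCard, Finset.card_univ, Fintype.card_fin] at h2
  have h4 : (H.card : ℝ) ≤ (n.choose 3 : ℝ) := by exact_mod_cast h2
  have h5 := Nat.choose_le_pow_div (α := ℝ) 3 n
  have h6 : ((Nat.factorial 3 : ℕ) : ℝ) = 6 := by norm_num [Nat.factorial]
  rw [h6] at h5
  linarith

/-- **The expansion inequality.** -/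
theorem expansion {r : ℕ} (hr : 4 ≤ r) (hH : Free r H) (hP : P ⊆ pairs n) :
    ((P.card : ℝ) * (pairs n \ P).card) ^ 2 ≤ 11 * (n : ℝ) ^ 5 * ((ex r n : ℝ) - H.card + mixed H P) := by
  have hle : (H.card : ℝ) ≤ ex r n := by exact_mod_cast card_le_ex hH
  have hmx : (0 : ℝ) ≤ mixed H P := Nat.cast_nonneg _
  set D : ℝ := (ex r n : ℝ) - H.card + mixed H P with hD
  have hD0 : 0 ≤ D := by linarith
  set q : ℝ := (P.card : ℝ) * (pairs n \ P).card with hq
  have hq0 : 0 ≤ q := by positivity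
  rcases Nat.eq_zero_or_pos n with h0 | h0
  · subst h0
    have hp0 := card_pairs 0
    have h1 : ((pairs 0).card : ℝ) = 0 := by rw [hp0]; norm_num
    have h2 : (P.card : ℝ) ≤ (pairs 0).card := by exact_mod_cast Finset.card_le_card hP
    have h3 : (P.card : ℝ) = 0 := le_antisymm (by linarith) (Nat.cast_nonneg _)
    rw [hq, h3]
    norm_num
  have hn : (1 : ℝ) ≤ n := by exact_mod_cast h0
  have hn0 : (0 : ℝ) < n := by linarith
  have hcl : (P.card : ℝ) + (pairs n \ P).card = (n : ℝ) * (n - 1) / 2 := by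
    rw [← card_pairs, ← Nat.cast_add, Finset.card_sdiff_of_subset hP]
    congr 1
    have := Finset.card_le_card hP
    omega
  have hq4 : q ≤ (n : ℝ) ^ 4 / 16 := by
    have h1 : 4 * q ≤ ((P.card : ℝ) + (pairs n \ P).card) ^ 2 := by
      rw [hq]; nlinarith [sq_nonneg ((P.card : ℝ) - (pairs n \ P).card)]
    rw [hcl] at h1
    have h2 : (n : ℝ) * (n - 1) / 2 ≤ (n : ℝ) ^ 2 / 2 := by nlinarith
    have h3 : 0 ≤ (n : ℝ) * (n - 1) / 2 := by
      have : 0 ≤ (n : ℝ) - 1 := by linarith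
      positivity
    have h4 : ((n : ℝ) * (n - 1) / 2) ^ 2 ≤ ((n : ℝ) ^ 2 / 2) ^ 2 := pow_le_pow_left₀ h3 h2 2
    nlinarith
  obtain ⟨γ, hγ0, hγ1, hqe⟩ : ∃ γ : ℝ, 0 ≤ γ ∧ γ ≤ 1 / 16 ∧ q = γ * (n : ℝ) ^ 4 := by
    refine ⟨q / (n : ℝ) ^ 4, by positivity, ?_, ?_⟩
    · rw [div_le_iff₀ (by positivity)]
      linarith
    · rw [div_mul_cancel₀]
      positivity
  have hmain := main_ineq hr hH hP hγ0 (by linarith)
  rw [← hD, ← hq] at hmain
  have h6 := card_le_sixth hH.1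
  clear_value D
  have hsq : (15 / 16 : ℝ) ^ 2 ≤ (1 - γ) ^ 2 := pow_le_pow_left₀ (by norm_num) (by linarith) 2
  -- lower bound for the left side
  have e1 : 8 / 9 * γ * (15 / 16) ^ 2 * q ≤ 8 / 9 * γ * (1 - γ) ^ 2 * q := by
    refine mul_le_mul_of_nonneg_right ?_ hq0
    exact mul_le_mul_of_nonneg_left hsq (by positivity)
  have e2 : (2 * (n : ℝ) + 1) * (D + γ ^ 2 * (1 - γ) * H.card) ≤
      3 * n * (D + γ ^ 2 * ((n : ℝ) ^ 3 / 6)) := by
    have a1 : γ ^ 2 * (1 - γ) * H.card ≤ γ ^ 2 * ((n : ℝ) ^ 3 / 6) := by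
      have b1 : γ ^ 2 * (1 - γ) ≤ γ ^ 2 := by nlinarith [sq_nonneg γ]
      exact mul_le_mul b1 h6 (Nat.cast_nonneg _) (sq_nonneg _)
    have a2 : 0 ≤ D + γ ^ 2 * (1 - γ) * H.card := by
      have : 0 ≤ 1 - γ := by linarith
      positivity
    calc (2 * (n : ℝ) + 1) * (D + γ ^ 2 * (1 - γ) * H.card)
        ≤ 3 * n * (D + γ ^ 2 * (1 - γ) * H.card) := mul_le_mul_of_nonneg_right (by linarith) a2
      _ ≤ _ := mul_le_mul_of_nonneg_left (by linarith) (by positivity)
  have e3 : 8 / 9 * γ * (15 / 16) ^ 2 * q ≤ 3 * n * (D + γ ^ 2 * ((n : ℝ) ^ 3 / 6)) :=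
    e1.trans (hmain.trans e2)
  rw [hqe] at e3
  have e4 : 9 / 32 * γ ^ 2 * (n : ℝ) ^ 4 ≤ 3 * n * D := by nlinarith
  have e5 : q ^ 2 = γ ^ 2 * (n : ℝ) ^ 4 * (n : ℝ) ^ 4 := by rw [hqe]; ring
  rw [e5]
  have e6 : γ ^ 2 * (n : ℝ) ^ 4 ≤ 11 * n * D := by
    have : 0 ≤ (n : ℝ) * D := by positivity
    nlinarith
  calc γ ^ 2 * (n : ℝ) ^ 4 * (n : ℝ) ^ 4 ≤ 11 * n * D * (n : ℝ) ^ 4 :=
        mul_le_mul_of_nonneg_right e6 (by positivity)
    _ = 11 * (n : ℝ) ^ 5 * D := by ring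

/-- **One tight component contains almost all pairs.** -/
theorem tight_main {r : ℕ} (hr : 4 ≤ r) {δ : ℝ} (hδ : 0 < δ) : ∃ ε : ℝ, 0 < ε ∧ ∀ n : ℕ, 2 ≤ n →
    ∀ H : Finset (Finset (Fin n)), Free r H → (ex r n : ℝ) ≤ H.card + ε * (n : ℝ) ^ 3 →
      ∃ p ∈ pairs n, (1 - δ) * ((pairs n).card : ℝ) ≤ ((comp H p).card : ℝ) := by
  set d : ℝ := min δ (1 / 4) with hd
  have hd0 : 0 < d := lt_min hδ (by norm_num)
  have hd4 : d ≤ 1 / 4 := min_le_right _ _
  have hdδ : d ≤ δ := min_le_left _ _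
  have hdd : 0 < d * (1 - d) := mul_pos hd0 (by linarith)
  refine ⟨(d * (1 - d)) ^ 2 / 2900, by positivity, fun n hn H hH hex => ?_⟩
  by_contra hcon
  push Not at hcon
  have hn2 : (2 : ℝ) ≤ n := by exact_mod_cast hn
  have hNr : ((pairs n).card : ℝ) = (n : ℝ) * (n - 1) / 2 := card_pairs n
  have hNpos : (n : ℝ) ^ 2 / 4 ≤ ((pairs n).card : ℝ) := by rw [hNr]; nlinarith
  have hN0 : (0 : ℝ) < (pairs n).card := lt_of_lt_of_le (by positivity) hNpos
  obtain ⟨P, hPs, hPc, hPq⟩ := balanced (H := H) hd0 hd4 (by exact_mod_cast hN0) (fun p hp => by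
    refine (hcon p hp).trans_le ?_
    exact mul_le_mul_of_nonneg_right (by linarith) hN0.le)
  have h1 := expansion hr hH hPs
  rw [mixed_closed hPc, Nat.cast_zero, add_zero] at h1
  have h2 : d * (1 - d) * ((n : ℝ) ^ 2 / 4) ^ 2 ≤ (P.card : ℝ) * (pairs n \ P).card := by
    refine le_trans ?_ hPq
    exact mul_le_mul_of_nonneg_left (pow_le_pow_left₀ (by positivity) hNpos 2) hdd.le
  have h3 : (d * (1 - d) * ((n : ℝ) ^ 2 / 4) ^ 2) ^ 2 ≤ ((P.card : ℝ) * (pairs n \ P).card) ^ 2 :=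
    pow_le_pow_left₀ (by positivity) h2 2
  have h4 : 11 * (n : ℝ) ^ 5 * ((ex r n : ℝ) - H.card) ≤
      11 * (n : ℝ) ^ 5 * ((d * (1 - d)) ^ 2 / 2900 * (n : ℝ) ^ 3) :=
    mul_le_mul_of_nonneg_left (by linarith) (by positivity)
  have h5 := h3.trans (h1.trans h4)
  have h6 : 0 < (d * (1 - d)) ^ 2 * (n : ℝ) ^ 8 := by positivity
  nlinarith

end Pool.Agent.K3h28.TU
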