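import Pool.Agent.K3h28.TU.Rem

/-!
# Poor corners of the non-edges in near-extremal 3-graphs
-/

set_option autoImplicit false
open Finset

namespace Pool.Agent.K3h28.TU

variable {n : ℕ}

/-- the vertices `w` such that `x y w` and `x z w` are edges -/
def cn (H : Finset (Finset (Fin n))) (x y z : Fin n) : Finset (Fin n) :=
  univ.filter fun w => ({x, y, w} : Finset (Fin n)) ∈ H ∧ ({x, z, w} : Finset (Fin n)) ∈ H

/-- `a b z` is a non-edge with poor corners `a`, `b` -/
def Poor (H : Finset (Finset (Fin n))) (t : ℝ) (a b z : Fin n) : Prop :=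
  (a ≠ b ∧ a ≠ z ∧ b ≠ z) ∧ ({a, b, z} : Finset (Fin n)) ∉ H ∧ ((cn H a b z).card : ℝ) < t ∧
    ((cn H b a z).card : ℝ) < t

theorem Poor.symm {H : Finset (Finset (Fin n))} {t : ℝ} {a b z : Fin n} (h : Poor H t a b z) :
    Poor H t b a z := by
  obtain ⟨⟨h1, h2, h3⟩, h4, h5, h6⟩ := h
  refine ⟨⟨h1.symm, h3, h2⟩, ?_, h6, h5⟩
  rw [Finset.insert_comm]
  exact h4

open Classical in
theorem count_tri {H : Finset (Finset (Fin n))} {t : ℝ} (ht : 0 ≤ t) (x : Fin n) :
    ((univ.filter fun p : Fin n × Fin n × Fin n => ({x, p.1, p.2.1} : Finset (Fin n)) ∈ H ∧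
      ({x, p.2.2, p.2.1} : Finset (Fin n)) ∈ H ∧ Poor H t x p.1 p.2.2).card : ℝ) ≤ (n : ℝ) ^ 2 * t := by
  rw [Finset.card_filter]
  push_cast
  rw [Fintype.sum_prod_type]
  simp only [Fintype.sum_prod_type]
  calc _ = ∑ y : Fin n, ∑ z : Fin n, ∑ w : Fin n, (if ({x, y, w} : Finset (Fin n)) ∈ H ∧
      ({x, z, w} : Finset (Fin n)) ∈ H ∧ Poor H t x y z then (1 : ℝ) else 0) :=
        Finset.sum_congr rfl fun y _ => Finset.sum_comm
    _ ≤ ∑ y : Fin n, ∑ z : Fin n, t := by
        refine Finset.sum_le_sum fun y _ => Finset.sum_le_sum fun z _ => ?_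
        by_cases hP : Poor H t x y z
        · have h1 : (∑ w : Fin n, (if ({x, y, w} : Finset (Fin n)) ∈ H ∧
              ({x, z, w} : Finset (Fin n)) ∈ H ∧ Poor H t x y z then (1 : ℝ) else 0)) =
              ((cn H x y z).card : ℝ) := by
            unfold cn
            rw [Finset.card_filter]
            push_cast
            refine Finset.sum_congr rfl fun w _ => ?_
            simp only [hP, and_true]
          rw [h1]
          exact hP.2.2.1.le
        · have h1 : (∑ w : Fin n, (if ({x, y, w} : Finset (Fin n)) ∈ H ∧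
              ({x, z, w} : Finset (Fin n)) ∈ H ∧ Poor H t x y z then (1 : ℝ) else 0)) = 0 :=
            Finset.sum_eq_zero fun w _ => if_neg fun h => hP h.2.2
          rw [h1]
          exact ht
    _ = (n : ℝ) ^ 2 * t := by
        simp only [Finset.sum_const, Finset.card_univ, Fintype.card_fin, nsmul_eq_mul]
        ring

open Classical in
theorem card_fibre (P : Fin n → Fin n → Fin n → Prop) {c : ℝ}
    (h : ∀ x, ((univ.filter fun p : Fin n × Fin n => P x p.1 p.2).card : ℝ) ≤ c) :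
    ((univ.filter fun p : Fin n × Fin n × Fin n => P p.1 p.2.1 p.2.2).card : ℝ) ≤ n * c := by
  have h1 : ((univ.filter fun p : Fin n × Fin n × Fin n => P p.1 p.2.1 p.2.2).card : ℝ) =
      ∑ x : Fin n, ((univ.filter fun p : Fin n × Fin n => P x p.1 p.2).card : ℝ) := by
    rw [Finset.card_filter]
    push_cast
    rw [Fintype.sum_prod_type]
    refine Finset.sum_congr rfl fun x _ => ?_
    rw [Finset.card_filter]
    push_cast
    rfl
  rw [h1]
  refine (Finset.sum_le_sum fun x _ => h x).trans ?_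
  simp

open Classical in
theorem key {H : Finset (Finset (Fin n))} {t ε : ℝ} (ht : 0 ≤ t)
    (hb : (n : ℝ) ^ 2 * t < SimpleGraph.triangleRemovalBound ε * (27 * (n : ℝ) ^ 3)) :
    ∃ (K : Finset (Finset (Fin n))) (Q : Fin n → Fin n → Fin n → Prop), K ⊆ H ∧ Good K Q ∧
      (∀ a b z, Q a b z → Poor H t a b z) ∧
      (H.card : ℝ) ≤ K.card + 18 * ε * (n : ℝ) ^ 3 ∧
      ((univ.filter fun p : Fin n × Fin n × Fin n => Poor H t p.1 p.2.1 p.2.2).card : ℝ) ≤
        ((univ.filter fun p : Fin n × Fin n × Fin n => Q p.1 p.2.1 p.2.2).card : ℝ) +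
          18 * ε * (n : ℝ) ^ 3 := by
  choose A' B' D' hno hA hB hD using fun x : Fin n =>
    tri_removal (fun y w => ({x, y, w} : Finset (Fin n)) ∈ H) (fun w z => ({x, z, w} : Finset (Fin n)) ∈ H)
      (fun y z => Poor H t x y z) (ε := ε) (by
        have h1 := (count_tri (H := H) ht x).trans_lt hb
        refine lt_of_eq_of_lt ?_ h1
        congr!)
  refine ⟨H.filter fun e => ∀ x y w, e = {x, y, w} → A' x y w ∧ B' x w y,
    fun a b z => Poor H t a b z ∧ D' a b z ∧ D' b a z, Finset.filter_subset _ _, ⟨?_, ?_, ?_⟩, ?_, ?_, ?_⟩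
  · rintro a b z ⟨hP, -, -⟩ h
    exact hP.2.1 (mem_filter.1 h).1
  · rintro a b z w ⟨hP, hd, -⟩ h h'
    exact hno a b w z ((mem_filter.1 h).2 a b w rfl).1 ((mem_filter.1 h').2 a z w rfl).2 hd
  · rintro a b z w ⟨hP, -, hd⟩ h h'
    rw [Finset.insert_comm] at h
    exact hno b a w z ((mem_filter.1 h).2 b a w rfl).1 ((mem_filter.1 h').2 b z w rfl).2 hd
  · rintro a b z ⟨hP, -, -⟩
    exact hP
  · have h1 := card_fibre (fun x y w => ({x, y, w} : Finset (Fin n)) ∈ H ∧ ¬ A' x y w)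
      (c := 9 * ε * (n : ℝ) ^ 2) (by
        intro x
        have := hA x
        convert this)
    have h2 := card_fibre (fun x w z => ({x, z, w} : Finset (Fin n)) ∈ H ∧ ¬ B' x w z)
      (c := 9 * ε * (n : ℝ) ^ 2) (by
        intro x
        have := hB x
        convert this)
    set S1 := (univ.filter fun p : Fin n × Fin n × Fin n =>
      ({p.1, p.2.1, p.2.2} : Finset (Fin n)) ∈ H ∧ ¬ A' p.1 p.2.1 p.2.2) with hS1
    set S2 := (univ.filter fun p : Fin n × Fin n × Fin n =>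
      ({p.1, p.2.2, p.2.1} : Finset (Fin n)) ∈ H ∧ ¬ B' p.1 p.2.1 p.2.2) with hS2
    have h3 : H ⊆ (H.filter fun e => ∀ x y w, e = {x, y, w} → A' x y w ∧ B' x w y) ∪
        (S1.image (fun p => ({p.1, p.2.1, p.2.2} : Finset (Fin n))) ∪
          S2.image (fun p => ({p.1, p.2.2, p.2.1} : Finset (Fin n)))) := by
      intro e he
      by_cases hk : ∀ x y w, e = {x, y, w} → A' x y w ∧ B' x w y
      · exact mem_union_left _ (mem_filter.2 ⟨he, hk⟩)
      · push Not at hk
        obtain ⟨x, y, w, rfl, hk⟩ := hk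
        refine mem_union_right _ ?_
        by_cases hA1 : A' x y w
        · refine mem_union_right _ (mem_image.2 ⟨(x, w, y), ?_, rfl⟩)
          rw [hS2, mem_filter]
          exact ⟨mem_univ _, he, hk hA1⟩
        · refine mem_union_left _ (mem_image.2 ⟨(x, y, w), ?_, rfl⟩)
          rw [hS1, mem_filter]
          exact ⟨mem_univ _, he, hA1⟩
    have h4 := Finset.card_le_card h3
    have h5 := h4.trans ((Finset.card_union_le _ _).trans
      (Nat.add_le_add_left ((Finset.card_union_le _ _).trans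
        (Nat.add_le_add Finset.card_image_le Finset.card_image_le)) _))
    have h6 : (H.card : ℝ) ≤ ((H.filter fun e => ∀ x y w, e = {x, y, w} → A' x y w ∧ B' x w y).card : ℝ) +
        ((S1.card : ℝ) + (S2.card : ℝ)) := by exact_mod_cast h5
    have h7 : (S1.card : ℝ) ≤ n * (9 * ε * (n : ℝ) ^ 2) := by
      refine le_trans (le_of_eq ?_) h1
      rw [hS1]
      congr!
    have h8 : (S2.card : ℝ) ≤ n * (9 * ε * (n : ℝ) ^ 2) := by
      refine le_trans (le_of_eq ?_) h2
      rw [hS2]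
      congr!
    have h9 : (n : ℝ) * (9 * ε * (n : ℝ) ^ 2) = 9 * ε * (n : ℝ) ^ 3 := by ring
    rw [h9] at h7 h8
    linarith
  · have h1 := card_fibre (fun x y z => Poor H t x y z ∧ ¬ D' x y z)
      (c := 9 * ε * (n : ℝ) ^ 2) (by
        intro x
        have := hD x
        convert this)
    set S := (univ.filter fun p : Fin n × Fin n × Fin n =>
      Poor H t p.1 p.2.1 p.2.2 ∧ ¬ D' p.1 p.2.1 p.2.2) with hS
    have h2 : (univ.filter fun p : Fin n × Fin n × Fin n => Poor H t p.1 p.2.1 p.2.2) ⊆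
        (univ.filter fun p : Fin n × Fin n × Fin n => Poor H t p.1 p.2.1 p.2.2 ∧ D' p.1 p.2.1 p.2.2 ∧
          D' p.2.1 p.1 p.2.2) ∪ (S ∪ S.image fun p => (p.2.1, p.1, p.2.2)) := by
      rintro ⟨a, b, z⟩ hp
      rw [mem_filter] at hp
      by_cases h3 : D' a b z
      · by_cases h4 : D' b a z
        · exact mem_union_left _ (mem_filter.2 ⟨mem_univ _, hp.2, h3, h4⟩)
        · refine mem_union_right _ (mem_union_right _ (mem_image.2 ⟨(b, a, z), ?_, rfl⟩))
          rw [hS, mem_filter]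
          exact ⟨mem_univ _, hp.2.symm, h4⟩
      · refine mem_union_right _ (mem_union_left _ ?_)
        rw [hS, mem_filter]
        exact ⟨mem_univ _, hp.2, h3⟩
    have h5 := (Finset.card_le_card h2).trans ((Finset.card_union_le _ _).trans
      (Nat.add_le_add_left ((Finset.card_union_le _ _).trans
        (Nat.add_le_add_left Finset.card_image_le _)) _))
    have h6 : ((univ.filter fun p : Fin n × Fin n × Fin n => Poor H t p.1 p.2.1 p.2.2).card : ℝ) ≤
        ((univ.filter fun p : Fin n × Fin n × Fin n => Poor H t p.1 p.2.1 p.2.2 ∧ D' p.1 p.2.1 p.2.2 ∧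
          D' p.2.1 p.1 p.2.2).card : ℝ) + ((S.card : ℝ) + (S.card : ℝ)) := by exact_mod_cast h5
    have h7 : (S.card : ℝ) ≤ n * (9 * ε * (n : ℝ) ^ 2) := by
      refine le_trans (le_of_eq ?_) h1
      rw [hS]
      congr!
    have h9 : (n : ℝ) * (9 * ε * (n : ℝ) ^ 2) = 9 * ε * (n : ℝ) ^ 3 := by ring
    rw [h9] at h7
    exact h6.trans (add_le_add (le_of_eq (by congr!)) (by linarith))

open Classical in
/-- **Almost all non-edges have at least two rich corners.** -/
theorem linked_main {r : ℕ} (hr : 4 ≤ r) {η : ℝ} (hη : 0 < η) :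
    ∃ τ ε : ℝ, 0 < τ ∧ 0 < ε ∧ ∀ n : ℕ, ∀ H : Finset (Finset (Fin n)), Free r H →
      (ex r n : ℝ) ≤ H.card + ε * (n : ℝ) ^ 3 →
        ((univ.filter fun p : Fin n × Fin n × Fin n => Poor H (τ * n) p.1 p.2.1 p.2.2).card : ℝ) ≤
          η * (n : ℝ) ^ 3 := by
  set γ : ℝ := min (η / 9) (1 / 2) with hγ
  have hγ0 : 0 < γ := lt_min (by positivity) (by norm_num)
  have hγ1 : γ ≤ η / 9 := min_le_left _ _
  have hγ2 : γ ≤ 1 / 2 := min_le_right _ _
  set ε' : ℝ := η * γ / 999 with hε'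
  have hε'0 : 0 < ε' := by positivity
  have hβ := SimpleGraph.triangleRemovalBound_pos hε'0
  set β := SimpleGraph.triangleRemovalBound ε' with hβdef
  clear_value β
  refine ⟨β, η * γ / 54, hβ, by positivity, ?_⟩
  intro n H hH hex
  rcases Nat.eq_zero_or_pos n with hn | hn
  · subst hn
    simp
  have hn' : (0 : ℝ) < n := by exact_mod_cast hn
  obtain ⟨K, Q, hK, hG, hQ, hKc, hQc⟩ := key (H := H) (t := β * n) (ε := ε') (by positivity) (by
    rw [← hβdef]
    have : 0 < β * (n : ℝ) ^ 3 := by positivity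
    nlinarith)
  have haug := aug hr hH hK hG (w := ![(1 - γ) / 3, 2 * (1 - γ) / 3, γ])
    (by simp [Fin.sum_univ_three]; ring)
    (by intro i; fin_cases i <;> simp <;> linarith)
  simp only [Matrix.cons_val_zero, Matrix.cons_val_one, Matrix.cons_val] at haug
  have hfil : (univ.filter fun p : Fin n × Fin n × Fin n =>
      (p.1 ≠ p.2.1 ∧ p.1 ≠ p.2.2 ∧ p.2.1 ≠ p.2.2) ∧ Q p.1 p.2.1 p.2.2) =
      (univ.filter fun p : Fin n × Fin n × Fin n => Q p.1 p.2.1 p.2.2) := by
    refine Finset.filter_congr fun p _ => ?_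
    exact ⟨fun h => h.2, fun h => ⟨(hQ _ _ _ h).1, h⟩⟩
  rw [hfil] at haug
  set q : ℝ := ((univ.filter fun p : Fin n × Fin n × Fin n => Q p.1 p.2.1 p.2.2).card : ℝ) with hq
  have hq0 : 0 ≤ q := by rw [hq]; positivity
  clear_value q
  have hKn : (K.card : ℝ) ≤ (n : ℝ) ^ 3 / 6 := by
    have h1 : K ⊆ (univ : Finset (Fin n)).powersetCard 3 := fun e he =>
      Finset.mem_powersetCard.2 ⟨Finset.subset_univ _, hH.1 e (hK he)⟩
    have h2 := Finset.card_le_card h1
    rw [Finset.card_powersetCard, Finset.card_univ, Fintype.card_fin] at h2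
    have h3 : (n.choose 3 : ℝ) ≤ (n : ℝ) ^ 3 / (Nat.factorial 3 : ℕ) := Nat.choose_le_pow_div 3 n
    have h4 : (K.card : ℝ) ≤ (n.choose 3 : ℝ) := by exact_mod_cast h2
    have h5 : ((Nat.factorial 3 : ℕ) : ℝ) = 6 := by norm_num [Nat.factorial]
    rw [h5] at h3
    exact h4.trans h3
  have hN : (0 : ℝ) < (n : ℝ) ^ 3 := by positivity
  set N : ℝ := (n : ℝ) ^ 3 with hNdef
  clear_value N
  -- the main inequality
  have h1 : 2 / 9 * (1 - γ) ^ 2 * γ * q ≤ η * γ / 54 * N + 18 * ε' * N + γ ^ 2 * (N / 6) := by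
    have h2 : (K.card : ℝ) * (3 * ((1 - γ) / 3) * γ ^ 2) ≤ γ ^ 2 * (N / 6) := by
      have h3 : (3 * ((1 - γ) / 3) * γ ^ 2) ≤ γ ^ 2 := by nlinarith [sq_nonneg γ]
      have h4 : (0 : ℝ) ≤ K.card := by positivity
      calc (K.card : ℝ) * (3 * ((1 - γ) / 3) * γ ^ 2) ≤ K.card * γ ^ 2 :=
            mul_le_mul_of_nonneg_left h3 h4
        _ ≤ (N / 6) * γ ^ 2 := mul_le_mul_of_nonneg_right hKn (sq_nonneg γ)
        _ = _ := by ring
    nlinarith
  have h2 : (1 : ℝ) / 4 ≤ (1 - γ) ^ 2 := by nlinarith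
  have h3 : 1 / 18 * γ * q ≤ η * γ / 54 * N + 18 * ε' * N + γ ^ 2 * (N / 6) := by
    have : 1 / 18 * γ * q ≤ 2 / 9 * (1 - γ) ^ 2 * γ * q := by
      have h4 : 0 ≤ γ * q := by positivity
      nlinarith
    linarith
  have h4 : q ≤ η / 3 * N + 324 * (η / 999) * N + 3 * γ * N := by
    have h5 : γ * q ≤ γ * (η / 3 * N + 324 * (η / 999) * N + 3 * γ * N) := by
      rw [hε'] at h3
      nlinarith
    exact le_of_mul_le_mul_left h5 hγ0
  have h5 : 18 * ε' * N ≤ 9 * (η / 999) * N := by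
    have : ε' ≤ η / 999 * (1 / 2) := by
      rw [hε']
      have : η * γ ≤ η * (1 / 2) := mul_le_mul_of_nonneg_left hγ2 hη.le
      linarith
    nlinarith
  have h6 : 3 * γ * N ≤ η / 3 * N := by nlinarith
  nlinarith

end Pool.Agent.K3h28.TU
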