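import Pool.Agent.K3h28.TU.Aug

/-!
# The triangle removal lemma for three relations
-/

set_option autoImplicit false
open Finset

namespace Pool.Agent.K3h28.TU

variable {n : ℕ} (A B D : Fin n → Fin n → Prop)

/-- the tripartite graph of three relations -/
def tg : SimpleGraph (Fin n × Fin 3) :=
  SimpleGraph.fromRel fun p q => (p.2 = 0 ∧ q.2 = 1 ∧ A p.1 q.1) ∨ (p.2 = 1 ∧ q.2 = 2 ∧ B p.1 q.1) ∨
    (p.2 = 0 ∧ q.2 = 2 ∧ D p.1 q.1)

theorem tg01 (y w : Fin n) : (tg A B D).Adj (y, 0) (w, 1) ↔ A y w := by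
  simp [tg, SimpleGraph.fromRel_adj]

theorem tg12 (w z : Fin n) : (tg A B D).Adj (w, 1) (z, 2) ↔ B w z := by
  simp [tg, SimpleGraph.fromRel_adj]

theorem tg02 (y z : Fin n) : (tg A B D).Adj (y, 0) (z, 2) ↔ D y z := by
  simp [tg, SimpleGraph.fromRel_adj]

theorem tg_ne {p q : Fin n × Fin 3} (h : (tg A B D).Adj p q) : p.2 ≠ q.2 := by
  unfold tg at h
  rw [SimpleGraph.fromRel_adj] at h
  intro he
  obtain ⟨-, h⟩ := h
  rcases h with (⟨h1, h2, -⟩ | ⟨h1, h2, -⟩ | ⟨h1, h2, -⟩) | (⟨h1, h2, -⟩ | ⟨h1, h2, -⟩ | ⟨h1, h2, -⟩) <;>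
    rw [h1, h2] at he <;> exact absurd he (by decide)

open Classical in
theorem clique_sub : (tg A B D).cliqueFinset 3 ⊆
    (univ.filter fun p : Fin n × Fin n × Fin n => A p.1 p.2.1 ∧ B p.2.1 p.2.2 ∧ D p.1 p.2.2).image
      fun p => {(p.1, 0), (p.2.1, 1), (p.2.2, 2)} := by
  intro s hs
  rw [SimpleGraph.mem_cliqueFinset_iff] at hs
  obtain ⟨hc, hs3⟩ := (SimpleGraph.isNClique_iff _).1 hs
  have hinj : Set.InjOn Prod.snd (s : Set (Fin n × Fin 3)) := by
    intro p hp q hq h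
    by_contra hne
    exact tg_ne A B D (hc hp hq hne) h
  have himg : s.image Prod.snd = univ := by
    apply Finset.eq_univ_of_card
    rw [Finset.card_image_of_injOn hinj, hs3, Fintype.card_fin]
  have hex : ∀ i : Fin 3, ∃ y : Fin n, (y, i) ∈ s := by
    intro i
    have : i ∈ s.image Prod.snd := by rw [himg]; exact mem_univ i
    obtain ⟨⟨y, j⟩, hy, rfl⟩ := mem_image.1 this
    exact ⟨y, hy⟩
  obtain ⟨y, hy⟩ := hex 0
  obtain ⟨w, hw⟩ := hex 1
  obtain ⟨z, hz⟩ := hex 2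
  have h01 := (tg01 A B D y w).1 (hc hy hw (by simp))
  have h12 := (tg12 A B D w z).1 (hc hw hz (by simp))
  have h02 := (tg02 A B D y z).1 (hc hy hz (by simp))
  refine mem_image.2 ⟨(y, w, z), ?_, ?_⟩
  · rw [mem_filter]
    exact ⟨mem_univ _, h01, h12, h02⟩
  · refine Finset.eq_of_subset_of_card_le ?_ ?_
    · intro v hv
      simp only [mem_insert, mem_singleton] at hv
      rcases hv with rfl | rfl | rfl <;> assumption
    · rw [hs3]
      rw [Finset.card_eq_three.2 ⟨(y, 0), (w, 1), (z, 2), by simp, by simp, by simp, rfl⟩]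

/-- number of removed pairs of classes `i`, `j` -/
theorem removed_le {G G' : SimpleGraph (Fin n × Fin 3)} [Fintype G.edgeSet] [Fintype G'.edgeSet]
    [DecidableRel G.Adj] [DecidableRel G'.Adj]
    (hle : G' ≤ G) (i j : Fin 3) (hij : i ≠ j) :
    (univ.filter fun p : Fin n × Fin n => G.Adj (p.1, i) (p.2, j) ∧ ¬ G'.Adj (p.1, i) (p.2, j)).card ≤
      G.edgeFinset.card - G'.edgeFinset.card := by
  have h1 : G'.edgeFinset ⊆ G.edgeFinset := SimpleGraph.edgeFinset_mono hle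
  rw [← Finset.card_sdiff_of_subset h1]
  refine Finset.card_le_card_of_injOn (fun p => s((p.1, i), (p.2, j))) ?_ ?_
  · intro p hp
    rw [mem_coe, mem_filter] at hp
    rw [mem_coe, mem_sdiff, SimpleGraph.mem_edgeFinset, SimpleGraph.mem_edgeFinset, SimpleGraph.mem_edgeSet,
      SimpleGraph.mem_edgeSet]
    exact hp.2
  · rintro ⟨a, b⟩ - ⟨c, d⟩ - h
    simp only [Sym2.eq_iff, Prod.mk.injEq] at h
    rcases h with ⟨⟨h1, -⟩, h2, -⟩ | ⟨⟨-, h1⟩, -⟩
    · rw [h1, h2]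
    · exact absurd h1 hij

open Classical in
/-- **Triangle removal for three relations.** -/
theorem tri_removal {ε : ℝ}
    (h : ((univ.filter fun p : Fin n × Fin n × Fin n => A p.1 p.2.1 ∧ B p.2.1 p.2.2 ∧ D p.1 p.2.2).card : ℝ) <
      SimpleGraph.triangleRemovalBound ε * (27 * (n : ℝ) ^ 3)) :
    ∃ A' B' D' : Fin n → Fin n → Prop,
      (∀ y w z, A' y w → B' w z → D' y z → False) ∧
      ((univ.filter fun p : Fin n × Fin n => A p.1 p.2 ∧ ¬ A' p.1 p.2).card : ℝ) ≤ 9 * ε * (n : ℝ) ^ 2 ∧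
      ((univ.filter fun p : Fin n × Fin n => B p.1 p.2 ∧ ¬ B' p.1 p.2).card : ℝ) ≤ 9 * ε * (n : ℝ) ^ 2 ∧
      ((univ.filter fun p : Fin n × Fin n => D p.1 p.2 ∧ ¬ D' p.1 p.2).card : ℝ) ≤ 9 * ε * (n : ℝ) ^ 2 := by
  have h1 : (((tg A B D).cliqueFinset 3).card : ℝ) <
      SimpleGraph.triangleRemovalBound ε * (Fintype.card (Fin n × Fin 3) : ℝ) ^ 3 := by
    have h2 : ((tg A B D).cliqueFinset 3).card ≤
        (univ.filter fun p : Fin n × Fin n × Fin n => A p.1 p.2.1 ∧ B p.2.1 p.2.2 ∧ D p.1 p.2.2).card :=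
      (Finset.card_le_card (clique_sub A B D)).trans Finset.card_image_le
    have h3 : (((tg A B D).cliqueFinset 3).card : ℝ) ≤ ((univ.filter fun p : Fin n × Fin n × Fin n =>
      A p.1 p.2.1 ∧ B p.2.1 p.2.2 ∧ D p.1 p.2.2).card : ℝ) := by exact_mod_cast h2
    refine h3.trans_lt (h.trans_eq ?_)
    rw [Fintype.card_prod, Fintype.card_fin, Fintype.card_fin]
    push_cast
    ring
  obtain ⟨G', hle, hdec, hcard, hfree⟩ := SimpleGraph.triangle_removal h1
  have hE : ((tg A B D).edgeFinset.card : ℝ) - (G'.edgeFinset.card : ℝ) < 9 * ε * (n : ℝ) ^ 2 := by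
    refine hcard.trans_eq ?_
    rw [Fintype.card_prod, Fintype.card_fin, Fintype.card_fin]
    push_cast
    ring
  have hE' : ∀ i j : Fin 3, i ≠ j →
      ((univ.filter fun p : Fin n × Fin n => (tg A B D).Adj (p.1, i) (p.2, j) ∧
        ¬ G'.Adj (p.1, i) (p.2, j)).card : ℝ) ≤ 9 * ε * (n : ℝ) ^ 2 := by
    intro i j hij
    have h3 : G'.edgeFinset.card ≤ (tg A B D).edgeFinset.card :=
      Finset.card_le_card (SimpleGraph.edgeFinset_mono hle)
    have h4 : ((univ.filter fun p : Fin n × Fin n => (tg A B D).Adj (p.1, i) (p.2, j) ∧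
        ¬ G'.Adj (p.1, i) (p.2, j)).card : ℝ) ≤ ((tg A B D).edgeFinset.card : ℝ) - (G'.edgeFinset.card : ℝ) := by
      rw [← Nat.cast_sub h3]
      exact Nat.cast_le.2 (@removed_le n (tg A B D) G' _ _ _ _ hle i j hij)
    exact h4.trans hE.le
  refine ⟨fun y w => G'.Adj (y, 0) (w, 1), fun w z => G'.Adj (w, 1) (z, 2), fun y z => G'.Adj (y, 0) (z, 2),
    ?_, ?_, ?_, ?_⟩
  · intro y w z a b d
    refine hfree {(y, 0), (w, 1), (z, 2)} ?_
    rw [SimpleGraph.is3Clique_iff]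
    exact ⟨(y, 0), (w, 1), (z, 2), a, d, b, rfl⟩
  · have := hE' 0 1 (by decide)
    simpa only [tg01] using this
  · have := hE' 1 2 (by decide)
    simpa only [tg12] using this
  · have := hE' 0 2 (by decide)
    simpa only [tg02] using this

end Pool.Agent.K3h28.TU
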