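import Pool.Agent.K3h28.TU.Cod

/-!
# Rich corners of the non-edges
-/

set_option autoImplicit false
open Finset

namespace Pool.Agent.K3h28.TU

variable {n : ℕ}

open Classical in
/-- at least `t` vertices `w` form edges `x y w` with both other vertices `y` of `T` -/
def Rich (H : Finset (Finset (Fin n))) (t : ℝ) (T : Finset (Fin n)) (x : Fin n) : Prop :=
  t ≤ (((univ : Finset (Fin n)).filter fun w => ∀ y ∈ T, y ≠ x → ({x, y, w} : Finset (Fin n)) ∈ H).card : ℝ)

open Classical in
theorem not_rich {H : Finset (Finset (Fin n))} {t : ℝ} {T : Finset (Fin n)} {a b z : Fin n}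
    (hT : T = {a, b, z}) (hab : a ≠ b) (haz : a ≠ z) (h : ¬ Rich H t T a) :
    ((cn H a b z).card : ℝ) < t := by
  unfold Rich at h
  push Not at h
  refine lt_of_eq_of_lt ?_ h
  congr 2
  unfold cn
  ext w
  simp only [mem_filter, mem_univ, true_and, hT, mem_insert, mem_singleton]
  constructor
  · rintro ⟨h1, h2⟩ y (rfl | rfl | rfl) hy
    · exact absurd rfl hy
    · exact h1
    · exact h2
  · intro h
    exact ⟨h b (by simp) hab.symm, h z (by simp) haz.symm⟩

open Classical in
theorem poor_of {H : Finset (Finset (Fin n))} {t : ℝ} {T : Finset (Fin n)} {a b z : Fin n}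
    (hT : T = {a, b, z}) (hab : a ≠ b) (haz : a ≠ z) (hbz : b ≠ z) (hH : T ∉ H) (ha : ¬ Rich H t T a)
    (hb : ¬ Rich H t T b) : Poor H t a b z := by
  refine ⟨⟨hab, haz, hbz⟩, hT ▸ hH, not_rich hT hab haz ha, ?_⟩
  refine not_rich ?_ hab.symm hbz hb
  rw [hT]
  exact Finset.insert_comm _ _ _

open Classical in
theorem poor_card (H : Finset (Finset (Fin n))) (t : ℝ) :
    ((univ : Finset (Finset (Fin n))).filter fun T => T.card = 3 ∧ T ∉ H ∧
      (T.filter fun x => Rich H t T x).card ≤ 1).card ≤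
      (univ.filter fun p : Fin n × Fin n × Fin n => Poor H t p.1 p.2.1 p.2.2).card := by
  refine (Finset.card_le_card ?_).trans (Finset.card_image_le (s := (univ.filter fun p : Fin n × Fin n × Fin n =>
    Poor H t p.1 p.2.1 p.2.2)) (f := fun p => ({p.1, p.2.1, p.2.2} : Finset (Fin n))))
  intro T hT
  obtain ⟨-, h3, hTH, hle⟩ := mem_filter.1 hT
  obtain ⟨x, y, z, hxy, hxz, hyz, hTe⟩ := Finset.card_eq_three.1 h3
  have two : ∀ a b : Fin n, a ≠ b → a ∈ T → b ∈ T → Rich H t T a → Rich H t T b → False := by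
    intro a b hab ha hb h1 h2
    have h4 : ({a, b} : Finset (Fin n)) ⊆ T.filter fun x => Rich H t T x := by
      intro v hv
      simp only [mem_insert, mem_singleton] at hv
      rcases hv with rfl | rfl
      · exact mem_filter.2 ⟨ha, h1⟩
      · exact mem_filter.2 ⟨hb, h2⟩
    have h5 := Finset.card_le_card h4
    rw [Finset.card_pair hab] at h5
    omega
  have hx : x ∈ T := by rw [hTe]; simp
  have hy : y ∈ T := by rw [hTe]; simp
  have hz : z ∈ T := by rw [hTe]; simp
  rw [mem_image]
  by_cases rx : Rich H t T x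
  · refine ⟨(y, z, x), ?_, ?_⟩
    · rw [mem_filter]
      refine ⟨mem_univ _, ?_⟩
      refine poor_of (T := T) ?_ hyz hxy.symm hxz.symm hTH (fun h => two x y hxy hx hy rx h)
        (fun h => two x z hxz hx hz rx h)
      rw [hTe]
      ext v
      simp only [mem_insert, mem_singleton]
      tauto
    · rw [hTe]
      ext v
      simp only [mem_insert, mem_singleton]
      tauto
  · by_cases ry : Rich H t T y
    · refine ⟨(x, z, y), ?_, ?_⟩
      · rw [mem_filter]
        refine ⟨mem_univ _, ?_⟩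
        refine poor_of (T := T) ?_ hxz hxy hyz.symm hTH rx
          (fun h => two y z hyz hy hz ry h)
        rw [hTe]
        ext v
        simp only [mem_insert, mem_singleton]
        tauto
      · rw [hTe]
        ext v
        simp only [mem_insert, mem_singleton]
        tauto
    · refine ⟨(x, y, z), ?_, hTe.symm⟩
      rw [mem_filter]
      exact ⟨mem_univ _, poor_of hTe hxy hxz hyz hTH rx ry⟩

open Classical in
/-- **Almost all non-edges have two rich corners.** -/
theorem rich_main {r : ℕ} (hr : 4 ≤ r) {η : ℝ} (hη : 0 < η) :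
    ∃ τ ε : ℝ, 0 < τ ∧ 0 < ε ∧ ∀ n : ℕ, ∀ H : Finset (Finset (Fin n)), Free r H →
      (ex r n : ℝ) ≤ H.card + ε * (n : ℝ) ^ 3 →
        (((univ : Finset (Finset (Fin n))).filter fun T => T.card = 3 ∧ T ∉ H ∧
          (T.filter fun x => Rich H (τ * n) T x).card ≤ 1).card : ℝ) ≤ η * (n : ℝ) ^ 3 := by
  obtain ⟨τ, ε, hτ, hε, h⟩ := linked_main hr hη
  refine ⟨τ, ε, hτ, hε, fun n H hH hex => ?_⟩
  refine le_trans ?_ (h n H hH hex)
  exact_mod_cast poor_card H (τ * n)

end Pool.Agent.K3h28.TU
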