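import Pool.Agent.K3h28.TU.Aug

/-!
# Colourings of the pairs of vertices of a 3-graph with many edges
-/

set_option autoImplicit false
open Finset

namespace Pool.Agent.K3h28.TU

/-- all pairs of vertices of `e` are in `P` or none -/
def Mono {n : ℕ} (P : Finset (Finset (Fin n))) (e : Finset (Fin n)) : Prop :=
  ∀ p q : Finset (Fin n), p ⊆ e → q ⊆ e → p.card = 2 → q.card = 2 → (p ∈ P ↔ q ∈ P)

open Classical in
/-- the number of edges which contain pairs of both kinds -/
noncomputable def mixed {n : ℕ} (H P : Finset (Finset (Fin n))) : ℕ := (H.filter fun e => ¬ Mono P e).card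

/-- the pairs of vertices -/
def pairs (n : ℕ) : Finset (Finset (Fin n)) := (univ : Finset (Fin n)).powersetCard 2

def QQ {n : ℕ} (P : Finset (Finset (Fin n))) (a b z : Fin n) : Prop :=
  (a ≠ b ∧ a ≠ z ∧ b ≠ z) ∧ (({a, z} : Finset (Fin n)) ∈ P ↔ ({b, z} : Finset (Fin n)) ∈ P) ∧
    ¬ (({a, b} : Finset (Fin n)) ∈ P ↔ ({a, z} : Finset (Fin n)) ∈ P)

open Classical in
theorem good_QQ {n : ℕ} {H P : Finset (Finset (Fin n))} (hH : ∀ e ∈ H, e.card = 3) :
    Good (H.filter fun e => Mono P e) (QQ P) := by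
  have key : ∀ x y t : Fin n, ({x, y, t} : Finset (Fin n)) ∈ H.filter (fun e => Mono P e) →
      (({x, y} : Finset (Fin n)) ∈ P ↔ ({x, t} : Finset (Fin n)) ∈ P) ∧
      (({x, y} : Finset (Fin n)) ∈ P ↔ ({y, t} : Finset (Fin n)) ∈ P) := by
    intro x y t h
    obtain ⟨h1, h2⟩ := mem_filter.1 h
    have hc := hH _ h1
    have hxy : x ≠ y := by
      rintro rfl
      have : ({x, x, t} : Finset (Fin n)).card ≤ 2 := by
        rw [Finset.insert_eq_of_mem (by simp)]; exact Finset.card_le_two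
      omega
    have hxt : x ≠ t := by
      rintro rfl
      have : ({x, y, x} : Finset (Fin n)).card ≤ 2 := by
        rw [Finset.insert_eq_of_mem (by simp)]; exact Finset.card_le_two
      omega
    have hyt : y ≠ t := by
      rintro rfl
      have : ({x, y, y} : Finset (Fin n)).card ≤ 2 := by
        rw [Finset.insert_eq_of_mem (a := y) (s := {y}) (by simp)]; exact Finset.card_le_two
      omega
    have s1 : ({x, y} : Finset (Fin n)) ⊆ {x, y, t} := by
      intro v hv; simp only [mem_insert, mem_singleton] at hv ⊢; tauto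
    have s2 : ({x, t} : Finset (Fin n)) ⊆ {x, y, t} := by
      intro v hv; simp only [mem_insert, mem_singleton] at hv ⊢; tauto
    have s3 : ({y, t} : Finset (Fin n)) ⊆ {x, y, t} := by
      intro v hv; simp only [mem_insert, mem_singleton] at hv ⊢; tauto
    exact ⟨h2 _ _ s1 s2 (Finset.card_pair hxy) (Finset.card_pair hxt),
      h2 _ _ s1 s3 (Finset.card_pair hxy) (Finset.card_pair hyt)⟩
  refine ⟨?_, ?_, ?_⟩
  · rintro a b z ⟨-, -, h⟩ hK
    exact h (key a b z hK).1
  · rintro a b z w ⟨-, -, h⟩ h1 h2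
    have k1 := (key a b w h1).1
    have k2 := (key a z w h2).1
    exact h (k1.trans k2.symm)
  · rintro a b z w ⟨-, h', h⟩ h1 h2
    have k1 := (key a b w h1).2
    have k2 := (key b z w h2).1
    exact h (k1.trans (k2.symm.trans h'.symm))

open Classical in
noncomputable def RR {n : ℕ} (P : Finset (Finset (Fin n))) (a b : Fin n) : ℝ :=
  if a ≠ b ∧ ({a, b} : Finset (Fin n)) ∈ P then 1 else 0

open Classical in
noncomputable def BB {n : ℕ} (P : Finset (Finset (Fin n))) (a b : Fin n) : ℝ :=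
  if a ≠ b ∧ ({a, b} : Finset (Fin n)) ∉ P then 1 else 0

variable {n : ℕ} {P : Finset (Finset (Fin n))}

theorem RR_symm (a b : Fin n) : RR P a b = RR P b a := by
  unfold RR
  rw [Finset.pair_comm a b]
  refine if_congr ?_ rfl rfl
  rw [ne_comm]

theorem BB_symm (a b : Fin n) : BB P a b = BB P b a := by
  unfold BB
  rw [Finset.pair_comm a b]
  refine if_congr ?_ rfl rfl
  rw [ne_comm]

theorem RR_nonneg (a b : Fin n) : 0 ≤ RR P a b := by unfold RR; split_ifs <;> norm_num
theorem BB_nonneg (a b : Fin n) : 0 ≤ BB P a b := by unfold BB; split_ifs <;> norm_num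
theorem RR_le (a b : Fin n) : RR P a b ≤ 1 := by unfold RR; split_ifs <;> norm_num
theorem BB_le (a b : Fin n) : BB P a b ≤ 1 := by unfold BB; split_ifs <;> norm_num

theorem RB {a b : Fin n} (h : a ≠ b) : RR P a b + BB P a b = 1 := by
  unfold RR BB
  by_cases h' : ({a, b} : Finset (Fin n)) ∈ P <;> simp [h, h']

theorem RB_mul (a b : Fin n) : RR P a b * BB P a b = 0 := by
  unfold RR BB
  by_cases h' : ({a, b} : Finset (Fin n)) ∈ P <;> simp [h']

/-- ordered bichromatic cherries -/
noncomputable def YY (P : Finset (Finset (Fin n))) : ℝ := ∑ x, ∑ y, ∑ z, RR P x y * BB P x z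

theorem prod_le : (∑ a, ∑ b, RR P a b) * (∑ u, ∑ v, BB P u v) ≤ (2 * (n : ℝ) + 1) * YY P := by
  have h1 : (∑ a, ∑ b, RR P a b) * (∑ u, ∑ v, BB P u v) = ∑ a, ∑ b, ∑ u, ∑ v, RR P a b * BB P u v := by
    rw [Finset.sum_mul]
    refine Finset.sum_congr rfl fun a _ => ?_
    rw [Finset.sum_mul]
    refine Finset.sum_congr rfl fun b _ => ?_
    rw [Finset.mul_sum]
    refine Finset.sum_congr rfl fun u _ => ?_
    rw [Finset.mul_sum]
  have h2 : ∀ a b u v : Fin n, RR P a b * BB P u v ≤
      (if a = u then RR P a b * BB P a v else 0) + RR P a b * BB P a u + RR P a u * BB P u v := by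
    intro a b u v
    by_cases h : a = u
    · subst h
      rw [if_pos rfl]
      have := mul_nonneg (RR_nonneg (P := P) a b) (BB_nonneg (P := P) a a)
      have := mul_nonneg (RR_nonneg (P := P) a a) (BB_nonneg (P := P) a v)
      linarith
    · rw [if_neg h]
      have e := RB (P := P) h
      have i1 := RR_nonneg (P := P) a b
      have i2 := BB_nonneg (P := P) u v
      have i3 := RR_le (P := P) a b
      have i4 := BB_le (P := P) u v
      have i5 := RR_nonneg (P := P) a u
      have i6 := BB_nonneg (P := P) a u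
      have j1 : RR P a b * BB P u v * BB P a u ≤ RR P a b * BB P a u := by
        have := mul_nonneg (mul_nonneg i1 i6) (sub_nonneg.2 i4)
        nlinarith
      have j2 : RR P a b * BB P u v * RR P a u ≤ RR P a u * BB P u v := by
        have := mul_nonneg (mul_nonneg i5 i2) (sub_nonneg.2 i3)
        nlinarith
      have j3 : RR P a b * BB P u v = RR P a b * BB P u v * BB P a u + RR P a b * BB P u v * RR P a u := by
        rw [← mul_add, add_comm (BB P a u), e, mul_one]
      linarith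
  rw [h1]
  have h3 : ∑ a, ∑ b, ∑ u, ∑ v, RR P a b * BB P u v ≤ ∑ a, ∑ b, ∑ u, ∑ v,
      ((if a = u then RR P a b * BB P a v else 0) + RR P a b * BB P a u + RR P a u * BB P u v) :=
    Finset.sum_le_sum fun a _ => Finset.sum_le_sum fun b _ => Finset.sum_le_sum fun u _ =>
      Finset.sum_le_sum fun v _ => h2 a b u v
  refine h3.trans (le_of_eq ?_)
  simp only [Finset.sum_add_distrib]
  have t1 : ∑ a : Fin n, ∑ b : Fin n, ∑ u : Fin n, ∑ v : Fin n, (if a = u then RR P a b * BB P a v else 0) = YY P := by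
    unfold YY
    refine Finset.sum_congr rfl fun a _ => Finset.sum_congr rfl fun b _ => ?_
    rw [Finset.sum_comm]
    refine Finset.sum_congr rfl fun v _ => ?_
    simp
  have t2 : ∑ a : Fin n, ∑ b : Fin n, ∑ u : Fin n, ∑ _v : Fin n, RR P a b * BB P a u = n * YY P := by
    unfold YY
    rw [Finset.mul_sum]
    refine Finset.sum_congr rfl fun a _ => ?_
    rw [Finset.mul_sum]
    refine Finset.sum_congr rfl fun b _ => ?_
    rw [Finset.mul_sum]
    refine Finset.sum_congr rfl fun u _ => ?_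
    rw [Finset.sum_const, Finset.card_univ, Fintype.card_fin, nsmul_eq_mul]
  have t3 : ∑ a : Fin n, ∑ _b : Fin n, ∑ u : Fin n, ∑ v : Fin n, RR P a u * BB P u v = n * YY P := by
    have : ∑ a : Fin n, ∑ _b : Fin n, ∑ u : Fin n, ∑ v : Fin n, RR P a u * BB P u v =
        n * ∑ a : Fin n, ∑ u : Fin n, ∑ v : Fin n, RR P a u * BB P u v := by
      rw [Finset.mul_sum]
      refine Finset.sum_congr rfl fun a _ => ?_
      rw [Finset.sum_const, Finset.card_univ, Fintype.card_fin, nsmul_eq_mul]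
    rw [this]
    congr 1
    unfold YY
    rw [Finset.sum_comm]
    refine Finset.sum_congr rfl fun u _ => Finset.sum_congr rfl fun a _ => Finset.sum_congr rfl fun v _ => ?_
    rw [RR_symm a u]
  rw [t1, t2, t3]
  ring

open Classical in
theorem QQ_ind (a b z : Fin n) : (if QQ P a b z then (1 : ℝ) else 0) =
    RR P a z * RR P b z * BB P a b + BB P a z * BB P b z * RR P a b := by
  unfold QQ RR BB
  by_cases h1 : a = b <;> by_cases h2 : a = z <;> by_cases h3 : b = z <;>
    by_cases k1 : ({a, b} : Finset (Fin n)) ∈ P <;> by_cases k2 : ({a, z} : Finset (Fin n)) ∈ P <;>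
    by_cases k3 : ({b, z} : Finset (Fin n)) ∈ P <;> simp [h1, h2, h3, k1, k2, k3]

theorem YY_eq : YY P = ∑ a, ∑ b, ∑ z, (RR P a z * RR P b z * BB P a b + BB P a z * BB P b z * RR P a b) := by
  have h1 : ∀ x y z : Fin n, RR P x y * BB P x z =
      RR P x y * BB P x z * RR P y z + RR P x y * BB P x z * BB P y z := by
    intro x y z
    by_cases h : y = z
    · subst h
      rw [RB_mul]
      ring
    · rw [← mul_add, RB h, mul_one]
  unfold YY
  simp only [Finset.sum_add_distrib]
  rw [Finset.sum_congr rfl fun x _ => Finset.sum_congr rfl fun y _ => Finset.sum_congr rfl fun z _ => h1 x y z]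
  simp only [Finset.sum_add_distrib]
  congr 1
  · refine Finset.sum_congr rfl fun x _ => ?_
    rw [Finset.sum_comm]
    refine Finset.sum_congr rfl fun z _ => Finset.sum_congr rfl fun y _ => ?_
    rw [RR_symm z y]
    ring
  · refine Finset.sum_congr rfl fun x _ => Finset.sum_congr rfl fun y _ => Finset.sum_congr rfl fun z _ => ?_
    ring

theorem sum_RR (hP : P ⊆ pairs n) : ∑ a, ∑ b, RR P a b = 2 * (P.card : ℝ) := by
  classical
  have h1 : ∑ a, ∑ b, RR P a b =
      ((univ.filter fun p : Fin n × Fin n => p.1 ≠ p.2 ∧ ({p.1, p.2} : Finset (Fin n)) ∈ P).card : ℝ) := by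
    rw [Finset.card_filter, ← Finset.sum_product']
    push_cast
    rfl
  rw [h1]
  have h2 := Finset.card_eq_sum_card_fiberwise (f := fun p : Fin n × Fin n => ({p.1, p.2} : Finset (Fin n)))
    (s := univ.filter fun p : Fin n × Fin n => p.1 ≠ p.2 ∧ ({p.1, p.2} : Finset (Fin n)) ∈ P) (t := P)
    (fun p hp => (mem_filter.1 hp).2.2)
  rw [h2]
  have h3 : ∀ p ∈ P, ((univ.filter fun p : Fin n × Fin n => p.1 ≠ p.2 ∧ ({p.1, p.2} : Finset (Fin n)) ∈ P).filter
      fun x => ({x.1, x.2} : Finset (Fin n)) = p).card = 2 := by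
    intro p hp
    obtain ⟨x, y, hxy, rfl⟩ := Finset.card_eq_two.1 (mem_powersetCard.1 (hP hp)).2
    rw [Finset.card_eq_two]
    refine ⟨(x, y), (y, x), by simp [hxy], ?_⟩
    ext ⟨u, v⟩
    simp only [mem_filter, mem_univ, true_and, mem_insert, mem_singleton, Prod.mk.injEq]
    constructor
    · rintro ⟨⟨huv, -⟩, h⟩
      have hu : u ∈ ({x, y} : Finset (Fin n)) := by rw [← h]; simp
      have hv : v ∈ ({x, y} : Finset (Fin n)) := by rw [← h]; simp
      simp only [mem_insert, mem_singleton] at hu hv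
      rcases hu with rfl | rfl <;> rcases hv with rfl | rfl
      · exact absurd rfl huv
      · exact Or.inl ⟨rfl, rfl⟩
      · exact Or.inr ⟨rfl, rfl⟩
      · exact absurd rfl huv
    · rintro (⟨rfl, rfl⟩ | ⟨rfl, rfl⟩)
      · exact ⟨⟨hxy, hp⟩, rfl⟩
      · exact ⟨⟨hxy.symm, by rw [Finset.pair_comm]; exact hp⟩, Finset.pair_comm _ _⟩
  rw [Finset.sum_congr rfl h3, Finset.sum_const, smul_eq_mul]
  push_cast
  ring

theorem sum_BB (hP : P ⊆ pairs n) : ∑ a, ∑ b, BB P a b = 2 * ((pairs n \ P).card : ℝ) := by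
  classical
  have h1 : ∀ a b : Fin n, BB P a b = RR (pairs n \ P) a b := by
    intro a b
    unfold BB RR
    refine if_congr ?_ rfl rfl
    constructor
    · rintro ⟨h1, h2⟩
      exact ⟨h1, mem_sdiff.2 ⟨mem_powersetCard.2 ⟨subset_univ _, Finset.card_pair h1⟩, h2⟩⟩
    · rintro ⟨h1, h2⟩
      exact ⟨h1, (mem_sdiff.1 h2).2⟩
  rw [Finset.sum_congr rfl fun a _ => Finset.sum_congr rfl fun b _ => h1 a b]
  exact sum_RR sdiff_subset

/-- **The main inequality.** -/
theorem main_ineq {r : ℕ} (hr : 4 ≤ r) {H : Finset (Finset (Fin n))} (hH : Free r H) (hP : P ⊆ pairs n)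
    {γ : ℝ} (h0 : 0 ≤ γ) (h1 : γ ≤ 1) :
    8 / 9 * γ * (1 - γ) ^ 2 * ((P.card : ℝ) * (pairs n \ P).card) ≤
      (2 * (n : ℝ) + 1) * ((ex r n : ℝ) - H.card + mixed H P + γ ^ 2 * (1 - γ) * H.card) := by
  classical
  set w : Fin 3 → ℝ := ![(1 - γ) / 3, 2 * (1 - γ) / 3, γ] with hw
  have e0 : w 0 = (1 - γ) / 3 := rfl
  have e1 : w 1 = 2 * (1 - γ) / 3 := rfl
  have e2 : w 2 = γ := rfl
  have hs : ∑ i, w i = 1 := by
    rw [Fin.sum_univ_three, e0, e1, e2]
    ring
  have hn : ∀ i, 0 ≤ w i := by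
    intro i
    fin_cases i
    · exact div_nonneg (by linarith) (by norm_num)
    · exact div_nonneg (by linarith) (by norm_num)
    · exact h0
  have h2 := aug hr hH (Finset.filter_subset (fun e => Mono P e) H) (good_QQ (P := P) hH.1) hs hn
  rw [e0, e1, e2] at h2
  have h3 : ((univ.filter fun p : Fin n × Fin n × Fin n =>
        (p.1 ≠ p.2.1 ∧ p.1 ≠ p.2.2 ∧ p.2.1 ≠ p.2.2) ∧ QQ P p.1 p.2.1 p.2.2).card : ℝ) = YY P := by
    rw [YY_eq, Finset.card_filter]
    push_cast
    rw [← Finset.univ_product_univ, Finset.sum_product]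
    refine Finset.sum_congr rfl fun a _ => ?_
    rw [← Finset.univ_product_univ, Finset.sum_product]
    refine Finset.sum_congr rfl fun b _ => Finset.sum_congr rfl fun z _ => ?_
    rw [← QQ_ind]
    refine if_congr ?_ rfl rfl
    constructor
    · exact fun h => h.2
    · exact fun h => ⟨h.1, h⟩
  rw [h3] at h2
  have h4 : ((H.filter fun e => Mono P e).card : ℝ) + mixed H P = H.card := by
    unfold mixed
    exact_mod_cast Finset.card_filter_add_card_filter_not (s := H) (fun e => Mono P e)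
  have h5 := prod_le (P := P)
  rw [sum_RR hP, sum_BB hP] at h5
  have h6 : (0 : ℝ) ≤ mixed H P := Nat.cast_nonneg _
  have h7 : 0 ≤ γ ^ 2 * (1 - γ) := mul_nonneg (sq_nonneg _) (by linarith)
  have h8 : 0 ≤ 2 / 9 * γ * (1 - γ) ^ 2 := by positivity
  have h9 := mul_le_mul_of_nonneg_left h5 h8
  have h10 : (2 * (n : ℝ) + 1) * (2 / 9 * γ * (1 - γ) ^ 2 * YY P) ≤
      (2 * (n : ℝ) + 1) * ((ex r n : ℝ) - H.card + mixed H P + γ ^ 2 * (1 - γ) * H.card) := by
    refine mul_le_mul_of_nonneg_left ?_ (by positivity)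
    have := mul_nonneg h7 h6
    nlinarith
  nlinarith

end Pool.Agent.K3h28.TU
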